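import Mathlib.Data.Sym.Card
import Mathlib.Data.Nat.Choose.Bounds
import Mathlib.Analysis.Complex.ExponentialBounds
import Mathlib.Combinatorics.Pigeonhole
import Mathlib.Tactic
import Pool.Agent.MP_a7b5fd_co.Main
import Mathlib.InformationTheory.Hamming
import Mathlib.Combinatorics.SimpleGraph.Finite
import Mathlib.Data.Fintype.CardEmbedding
import Mathlib.Data.ZMod.Basic
import Mathlib.Analysis.SpecialFunctions.Log.Basic
import Mathlib.NumberTheory.Bertrand
import Mathlib.Algebra.Field.ZMod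

-- ======== part 0: formerly Pool.Agent.MP_a7b5fd_co.h39.Triv
section MrgPart0

-- ======== part 0: formerly Pool.Agent.MP_a7b5fd_co.h39.Hash
section MrgPart0

/-!
# Alternating hashing: a short description of the intersection sizes along the edges
-/

set_option autoImplicit false

namespace Pool.Agent.MP_a7b5fd_co.H39

open Finset

lemma card_coll {L : Type} [Fintype L] [DecidableEq L] {R : ℕ} {p q : L} (hpq : p ≠ q) :
    R * (univ.filter fun h : L → Fin R => h p = h q).card ≤ Fintype.card (L → Fin R) := by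
  have h1 : ((univ : Finset (Fin R)) ×ˢ (univ.filter fun h : L → Fin R => h p = h q)).card ≤
      (univ : Finset (L → Fin R)).card := by
    refine card_le_card_of_injOn (fun z => Function.update z.2 p z.1) (fun _ _ => mem_univ _) ?_
    rintro ⟨r, h⟩ hz ⟨r', h'⟩ hz' he
    have e1 : h p = h q := by simpa using hz
    have e2 : h' p = h' q := by simpa using hz'
    have e3 : ∀ x, x ≠ p → h x = h' x := fun x hx => by
      have := congrFun he x
      simpa [Function.update_of_ne hx] using this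
    have e4 : r = r' := by
      have := congrFun he p
      simpa using this
    refine Prod.ext e4 (funext fun x => ?_)
    by_cases hx : x = p
    · subst hx
      show h x = h' x
      rw [e1, e2]
      exact e3 q hpq.symm
    · exact e3 x hx
  rw [card_product, card_univ, Fintype.card_fin, card_univ] at h1
  exact h1

lemma exists_hash {L ι : Type} [DecidableEq L] (I : Finset ι) (p q : ι → L)
    (hpq : ∀ i ∈ I, p i ≠ q i) {R : ℕ} (hR : 0 < R) :
    ∃ h : L → Fin R, R * (I.filter fun i => h (p i) = h (q i)).card ≤ I.card := by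
  classical
  let S : Finset L := I.image p ∪ I.image q
  let ext : (S → Fin R) → L → Fin R := fun h t => if ht : t ∈ S then h ⟨t, ht⟩ else ⟨0, hR⟩
  have : Nonempty (Fin R) := ⟨⟨0, hR⟩⟩
  have key : ∑ h : S → Fin R, R * (I.filter fun i => ext h (p i) = ext h (q i)).card ≤
      ∑ _h : S → Fin R, I.card := by
    have e1 : ∑ h : S → Fin R, R * (I.filter fun i => ext h (p i) = ext h (q i)).card =
        ∑ i ∈ I, R * (univ.filter fun h : S → Fin R => ext h (p i) = ext h (q i)).card := by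
      simp only [card_filter, mul_sum]
      exact sum_comm
    rw [e1, sum_const, card_univ, smul_eq_mul, mul_comm]
    refine (sum_le_card_nsmul I _ (Fintype.card (S → Fin R)) fun i hi => ?_).trans (by simp)
    have hp : p i ∈ S := mem_union_left _ (mem_image_of_mem _ hi)
    have hq : q i ∈ S := mem_union_right _ (mem_image_of_mem _ hi)
    have hne : (⟨p i, hp⟩ : S) ≠ ⟨q i, hq⟩ := fun h => hpq i hi (congrArg Subtype.val h)
    refine le_trans (le_of_eq ?_) (card_coll (R := R) hne)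
    congr 2
    ext h
    simp [ext, hp, hq]
  obtain ⟨h, -, hh⟩ := exists_le_of_sum_le univ_nonempty key
  exact ⟨ext h, hh⟩

/-- A multiset padded to size `x`. -/
def pad {α : Type} (x : ℕ) (s : Multiset α) (hs : Multiset.card s ≤ x) : Sym (Option α) x :=
  ⟨s.map some + Multiset.replicate (x - Multiset.card s) none, by
    rw [Multiset.card_add, Multiset.card_map, Multiset.card_replicate]
    omega⟩

lemma mem_pad {α : Type} {x : ℕ} {s : Multiset α} {hs : Multiset.card s ≤ x} {a : α} :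
    some a ∈ (pad x s hs).1 ↔ a ∈ s := by
  simp [pad, Multiset.mem_replicate]

/-- The number of proper members of `s` that occur in `s'`. -/
def cnt {α : Type} [DecidableEq α] (s s' : Multiset (Option α)) : ℕ :=
  Multiset.card (s.filter fun o => o ≠ none ∧ o ∈ s')

lemma cnt_pad {α L : Type} [DecidableEq α] {x y : ℕ} (X : Finset L) (H : Finset α) (h : L → α)
    (hx : Multiset.card (X.val.map h) ≤ x) (hy : Multiset.card H.val ≤ y) :
    cnt (pad x _ hx).1 (pad y _ hy).1 = (X.filter fun t => h t ∈ H).card := by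
  have e1 : (Multiset.replicate (x - Multiset.card (X.val.map h)) (none : Option α)).filter
      (fun o => o ≠ none ∧ o ∈ (pad y _ hy).1) = 0 := by
    rw [Multiset.filter_eq_nil]
    intro o ho
    simp [Multiset.eq_of_mem_replicate ho]
  unfold cnt
  rw [show (pad x _ hx).1 = (X.val.map h).map some +
    Multiset.replicate (x - Multiset.card (X.val.map h)) none from rfl, Multiset.filter_add, e1,
    add_zero, Multiset.map_map, Multiset.filter_map, Multiset.card_map]
  show _ = Multiset.card (X.val.filter fun t => h t ∈ H)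
  congr 1
  refine Multiset.filter_congr fun t _ => ?_
  simp only [Function.comp, mem_pad]
  simp

lemma choose_le (ρ x : ℕ) : (ρ * x + x).choose x ≤ (3 * (ρ + 1)) ^ x := by
  have h1 := Nat.choose_le_pow_div (α := ℝ) x (ρ * x + x)
  have h2 := Real.pow_div_factorial_le_exp (x : ℝ) (Nat.cast_nonneg x) x
  have h3 : Real.exp x ≤ 3 ^ x := by
    rw [← Real.exp_one_pow]
    exact pow_le_pow_left₀ (Real.exp_pos 1).le (by linarith [Real.exp_one_lt_d9]) x
  have h4 : (((ρ * x + x : ℕ) : ℝ) ^ x) / x.factorial =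
      ((ρ : ℝ) + 1) ^ x * ((x : ℝ) ^ x / x.factorial) := by
    push_cast
    rw [show (ρ : ℝ) * x + x = (ρ + 1) * x by ring, mul_pow]
    ring
  have h5 : (((ρ * x + x).choose x : ℕ) : ℝ) ≤ ((3 * (ρ + 1)) ^ x : ℕ) := by
    refine h1.trans ?_
    rw [h4]
    push_cast
    rw [mul_pow, mul_comm]
    exact mul_le_mul_of_nonneg_right (h2.trans h3) (by positivity)
  exact_mod_cast h5

lemma card_sym_le (D k x : ℕ) (hD : 1 ≤ D) :
    Fintype.card (Sym (Option (Fin (64 * D * 2 ^ k * x))) x) ≤ (195 * D * 2 ^ k) ^ x := by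
  rw [Sym.card_sym_eq_choose, Fintype.card_option, Fintype.card_fin,
    show 64 * D * 2 ^ k * x + 1 + x - 1 = 64 * D * 2 ^ k * x + x by omega]
  refine (choose_le _ _).trans (Nat.pow_le_pow_left ?_ _)
  have : 1 ≤ D * 2 ^ k := Nat.mul_pos hD (by positivity)
  nlinarith

theorem family (M : Type) [Fintype M] [DecidableEq M] (D J : ℕ) (hD : 1 ≤ D) :
    ∀ i ≤ J, ∃ 𝒩 : Finset (M → M → ℕ),
      𝒩.card ≤ ((195 * D) ^ (3 * 2 ^ i) * 2 ^ (3 * 2 ^ i * (J - i + 2))) ^ Fintype.card M ∧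
      ∀ (L : Type) [DecidableEq L] (E : M → M → Prop) [DecidableRel E] (X Y : M → Finset L),
        (∀ a, (univ.filter fun b => E a b).card ≤ D) →
        (∀ b, (univ.filter fun a => E a b).card ≤ D) →
        (∀ a, (X a).card ≤ 2 ^ i / 2) → (∀ b, (Y b).card ≤ 2 ^ i) →
        ∃ N ∈ 𝒩, ∃ SA SB : Finset M,
          16 * 2 ^ J * (SA.card + SB.card) ≤ 2 ^ i * Fintype.card M ∧
          ∀ a ∉ SA, ∀ b ∉ SB,
            (X a ∩ Y b).card ≤ N a b ∧ (E a b → N a b ≤ (X a ∩ Y b).card) := by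
  classical
  intro i
  induction i with
  | zero =>
    intro _
    refine ⟨{fun _ _ => 0}, ?_, ?_⟩
    · rw [card_singleton]
      exact Nat.one_le_pow _ _ (Nat.mul_pos (by positivity) (by positivity))
    · intro L _ E _ X Y _ _ hX _
      refine ⟨fun _ _ => 0, mem_singleton_self _, ∅, ∅, by simp, fun a _ b _ => ⟨?_, by simp⟩⟩
      have : X a = ∅ := card_eq_zero.1 (by simpa using hX a)
      simp [this]
  | succ i ih =>
    intro hi
    obtain ⟨𝒩, hc, h𝒩⟩ := ih (by omega)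
    set R := 64 * D * 2 ^ J with hR
    have hR0 : 0 < R := by positivity
    let F : (M → M → ℕ) × (M → Sym (Option (Fin R)) (2 ^ i)) ×
        (M → Sym (Option (Fin R)) (2 ^ (i + 1))) → M → M → ℕ :=
      fun z a b => z.1 b a + cnt (z.2.1 a).1 (z.2.2 b).1
    refine ⟨(𝒩 ×ˢ univ).image F, ?_, ?_⟩
    · refine card_image_le.trans ?_
      rw [card_product, card_univ, Fintype.card_prod, Fintype.card_fun, Fintype.card_fun]
      obtain ⟨k, hk⟩ : ∃ k, J = i + 1 + k := ⟨J - (i + 1), by omega⟩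
      have e1 : R = 64 * D * 2 ^ (k + 1) * 2 ^ i := by rw [hR, hk]; ring
      have e2 : R = 64 * D * 2 ^ k * 2 ^ (i + 1) := by rw [hR, hk]; ring
      have h1 : Fintype.card (Sym (Option (Fin R)) (2 ^ i)) ≤ (195 * D * 2 ^ (k + 1)) ^ 2 ^ i := by
        have := card_sym_le D (k + 1) (2 ^ i) hD
        rw [Sym.card_sym_eq_choose, Fintype.card_option, Fintype.card_fin] at this ⊢
        rwa [← e1] at this
      have h2 : Fintype.card (Sym (Option (Fin R)) (2 ^ (i + 1))) ≤
          (195 * D * 2 ^ (k + 1)) ^ 2 ^ (i + 1) := by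
        have := card_sym_le D k (2 ^ (i + 1)) hD
        rw [Sym.card_sym_eq_choose, Fintype.card_option, Fintype.card_fin] at this ⊢
        rw [← e2] at this
        exact this.trans (Nat.pow_le_pow_left
          (Nat.mul_le_mul_left _ (Nat.pow_le_pow_right (by norm_num) (by omega))) _)
      refine (Nat.mul_le_mul hc (Nat.mul_le_mul (Nat.pow_le_pow_left h1 _)
        (Nat.pow_le_pow_left h2 _))).trans (le_of_eq ?_)
      rw [← mul_pow, ← mul_pow]
      congr 1
      rw [show J - i + 2 = k + 3 by omega, show J - (i + 1) + 2 = k + 2 by omega]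
      generalize 195 * D = c
      rw [mul_pow, mul_pow, ← pow_mul, ← pow_mul, pow_succ 2 i]
      generalize 2 ^ i = w
      ring
    · intro L _ E _ X Y hEa hEb hX hY
      have hX' : ∀ a, (X a).card ≤ 2 ^ i := fun a => by
        have := hX a
        rw [pow_succ] at this
        omega
      let I : Finset (Σ _ : M, L × (Σ _ : M, L)) := univ.sigma fun b =>
        Y b ×ˢ ((univ.filter fun a => E a b).sigma fun a => X a \ Y b)
      have hI : I.card ≤ Fintype.card M * (2 ^ (i + 1) * (D * 2 ^ i)) := by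
        rw [card_sigma]
        refine (sum_le_card_nsmul _ _ (2 ^ (i + 1) * (D * 2 ^ i)) fun b _ => ?_).trans (by simp)
        rw [card_product, card_sigma]
        refine Nat.mul_le_mul (hY b) ?_
        refine (sum_le_card_nsmul _ _ (2 ^ i) fun a _ =>
          (card_le_card sdiff_subset).trans (hX' a)).trans ?_
        exact Nat.mul_le_mul_right _ (hEb b)
      obtain ⟨h, hh⟩ := exists_hash I (fun z => z.2.1) (fun z => z.2.2.2) (by
        rintro ⟨b, t, a, t'⟩ hz he
        simp only [I, mem_sigma, mem_univ, mem_product, mem_filter, mem_sdiff, true_and] at hz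
        simp only at he
        exact hz.2.2.2 (he ▸ hz.1)) hR0
      let Lost : M → Finset L := fun b =>
        (Y b).filter fun t => ∃ a, E a b ∧ ∃ t' ∈ X a, t' ∉ Y b ∧ h t = h t'
      have hL : ∑ b, (Lost b).card ≤ (I.filter fun z => h z.2.1 = h z.2.2.2).card := by
        rw [← card_sigma]
        refine card_le_card_of_surjOn (fun z => ⟨z.1, z.2.1⟩) ?_
        rintro ⟨b, t⟩ hz
        simp only [coe_sigma, Set.mem_sigma_iff, coe_univ, Set.mem_univ, mem_coe, Lost,
          mem_filter, true_and] at hz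
        obtain ⟨h1, a, h2, t', h3, h4, h5⟩ := hz
        refine ⟨⟨b, t, a, t'⟩, ?_, rfl⟩
        simp only [I, mem_coe, mem_filter, mem_sigma, mem_univ, mem_product, mem_sdiff, true_and]
        exact ⟨⟨h1, h2, h3, h4⟩, h5⟩
      let Bad : Finset M := univ.filter fun b => 2 ^ i / 2 < (Lost b).card
      have hB : 2 ^ i * Bad.card ≤ 2 * ∑ b, (Lost b).card := by
        rw [mul_sum, mul_comm]
        refine le_trans ?_ (sum_le_sum_of_subset (subset_univ Bad))
        refine card_nsmul_le_sum Bad _ _ fun b hb => ?_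
        have := (mem_filter.1 hb).2
        omega
      have hB' : 16 * 2 ^ J * Bad.card ≤ 2 ^ i * Fintype.card M := by
        have h1 : R * (2 ^ i * Bad.card) ≤
            2 * (Fintype.card M * (2 ^ (i + 1) * (D * 2 ^ i))) :=
          calc R * (2 ^ i * Bad.card) ≤ R * (2 * ∑ b, (Lost b).card) := Nat.mul_le_mul_left _ hB
            _ = 2 * (R * ∑ b, (Lost b).card) := by ring
            _ ≤ _ := Nat.mul_le_mul_left _ (((Nat.mul_le_mul_left _ hL).trans hh).trans hI)
        refine Nat.le_of_mul_le_mul_left (c := 4 * D * 2 ^ i) ?_ (by positivity)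
        calc 4 * D * 2 ^ i * (16 * 2 ^ J * Bad.card) = R * (2 ^ i * Bad.card) := by rw [hR]; ring
          _ ≤ _ := h1
          _ = _ := by ring
      let Lost' : M → Finset L := fun b => if b ∈ Bad then ∅ else Lost b
      obtain ⟨N0, hN0, SB, SA, hS, hN⟩ := h𝒩 L (fun b a => E a b) Lost' X hEb hEa (by
        intro b
        simp only [Lost']
        split_ifs with hb
        · simp
        · simpa [Bad] using hb) hX'
      let H : M → Finset (Fin R) := fun b => (Y b \ Lost b).image h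
      have hx : ∀ a, Multiset.card ((X a).val.map h) ≤ 2 ^ i := fun a => by
        rw [Multiset.card_map]
        exact hX' a
      have hy : ∀ b, Multiset.card (H b).val ≤ 2 ^ (i + 1) := fun b =>
        card_image_le.trans ((card_le_card sdiff_subset).trans (hY b))
      refine ⟨F (N0, fun a => pad _ _ (hx a), fun b => pad _ _ (hy b)),
        mem_image_of_mem _ (mem_product.2 ⟨hN0, mem_univ _⟩), SA, SB ∪ Bad, ?_, ?_⟩
      · have := card_union_le SB Bad
        calc 16 * 2 ^ J * (SA.card + (SB ∪ Bad).card)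
            ≤ 16 * 2 ^ J * (SB.card + SA.card + Bad.card) := Nat.mul_le_mul_left _ (by omega)
          _ = 16 * 2 ^ J * (SB.card + SA.card) + 16 * 2 ^ J * Bad.card := by ring
          _ ≤ 2 ^ i * Fintype.card M + 2 ^ i * Fintype.card M := Nat.add_le_add hS hB'
          _ = _ := by ring
      · intro a ha b hb
        rw [mem_union, not_or] at hb
        obtain ⟨h1, h2⟩ := hN b hb.1 a ha
        have e0 : Lost' b = Lost b := if_neg hb.2
        rw [e0] at h1 h2
        have e1 : F (N0, fun a => pad _ _ (hx a), fun b => pad _ _ (hy b)) a b =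
            N0 b a + ((X a).filter fun t => h t ∈ H b).card := by
          simp only [F]
          rw [cnt_pad]
        have e2 : (X a ∩ Y b).card = (Lost b ∩ X a).card + (X a ∩ (Y b \ Lost b)).card := by
          rw [← card_union_of_disjoint]
          · congr 1
            ext t
            have : t ∈ Lost b → t ∈ Y b := fun ht => (mem_filter.1 ht).1
            simp only [mem_inter, mem_union, mem_sdiff]
            tauto
          · rw [disjoint_left]
            intro t ht ht'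
            exact (mem_sdiff.1 (mem_inter.1 ht').2).2 (mem_inter.1 ht).1
        have e3 : X a ∩ (Y b \ Lost b) ⊆ (X a).filter fun t => h t ∈ H b := fun t ht =>
          mem_filter.2 ⟨(mem_inter.1 ht).1, mem_image_of_mem _ (mem_inter.1 ht).2⟩
        rw [e1, e2]
        refine ⟨Nat.add_le_add h1 (card_le_card e3), fun hE => Nat.add_le_add (h2 hE) ?_⟩
        refine card_le_card fun t ht => ?_
        obtain ⟨ht1, ht2⟩ := mem_filter.1 ht
        obtain ⟨t0, ht0, he⟩ := mem_image.1 ht2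
        obtain ⟨ht3, ht4⟩ := mem_sdiff.1 ht0
        have ht5 : t ∈ Y b := by
          by_contra hcon
          exact ht4 (mem_filter.2 ⟨ht3, a, hE, t, ht1, hcon, he⟩)
        refine mem_inter.2 ⟨ht1, mem_sdiff.2 ⟨ht5, fun hl => ?_⟩⟩
        obtain ⟨-, a', h3, t', h4, h5, h6⟩ := mem_filter.1 hl
        exact ht4 (mem_filter.2 ⟨ht3, a', h3, t', h4, h5, he.trans h6⟩)

end Pool.Agent.MP_a7b5fd_co.H39

end MrgPart0

-- ======== part 1: formerly Pool.Agent.MP_a7b5fd_co.h39.Lower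
section MrgPart1

/-!
# The lower bound `Δ log n / log Δ`
-/

set_option autoImplicit false

namespace Pool.Agent.MP_a7b5fd_co.H39

open Finset

lemma add_choose_le (a e : ℕ) : (a + e).choose e ≤ (a + 1) ^ e := by
  induction e with
  | zero => simp
  | succ e ih =>
    have h1 := Nat.add_one_mul_choose_eq (a + e) e
    refine Nat.le_of_mul_le_mul_right (c := e + 1) ?_ (by omega)
    calc (a + (e + 1)).choose (e + 1) * (e + 1) = (a + e + 1) * (a + e).choose e := h1.symm
      _ ≤ ((a + 1) * (e + 1)) * (a + 1) ^ e := Nat.mul_le_mul (by nlinarith) ih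
      _ = _ := by ring

lemma permGraph_right {m D : ℕ} (σ : Fin D → Equiv.Perm (Fin m)) (b : Fin m) :
    ((permGraph σ).filter fun e => e.2 = b).card ≤ D := by
  have : ((permGraph σ).filter fun e => e.2 = b) ⊆
      univ.image fun j : Fin D => ((σ j).symm b, b) := by
    rintro ⟨a, b'⟩ h
    obtain ⟨h1, rfl⟩ := mem_filter.1 h
    obtain ⟨j, rfl⟩ := mem_permGraph.1 h1
    exact mem_image.2 ⟨j, mem_univ _, by simp⟩
  exact (card_le_card this).trans (card_image_le.trans (by simp))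

open Classical in
lemma card_rep_le' (m t₀ D : ℕ) (hD : 1 ≤ D) (ht₀ : 1 ≤ t₀) :
    (univ.filter fun E : Finset (Fin m × Fin m) =>
      (∀ a, (E.filter fun e => e.1 = a).card ≤ D) ∧ (∀ b, (E.filter fun e => e.2 = b).card ≤ D) ∧
        Rep t₀ E).card ≤
      ((780 * D) ^ (24 * t₀)) ^ m * (t₀ ^ (2 * m) * (2 ^ m * (2 ^ m *
        (m * m + 1) ^ (D * (m / 16))))) := by
  set J := Nat.log 2 (2 * t₀) + 2 with hJ
  have hJ1 : 2 * t₀ ≤ 2 ^ J / 2 := by
    have := Nat.lt_pow_succ_log_self (b := 2) (by norm_num) (2 * t₀)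
    rw [hJ, pow_succ]
    rw [Nat.succ_eq_add_one] at this
    omega
  have hJ2 : 2 ^ J ≤ 8 * t₀ := by
    have := Nat.pow_log_le_self 2 (x := 2 * t₀) (by omega)
    rw [hJ, pow_succ, pow_succ]
    omega
  obtain ⟨𝒩, hc, h𝒩⟩ := family (Fin m) D J hD J le_rfl
  have hc' : 𝒩.card ≤ ((780 * D) ^ (24 * t₀)) ^ m := by
    refine hc.trans ?_
    rw [Fintype.card_fin]
    refine Nat.pow_le_pow_left ?_ _
    calc (195 * D) ^ (3 * 2 ^ J) * 2 ^ (3 * 2 ^ J * (J - J + 2)) = (780 * D) ^ (3 * 2 ^ J) := by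
          rw [Nat.sub_self, mul_comm (3 * 2 ^ J), pow_mul 2, ← mul_pow]
          congr 1
          ring
      _ ≤ _ := Nat.pow_le_pow_right (by omega) (by omega)
  let F : (Fin m → Fin m → ℕ) × (Fin m ⊕ Fin m → Fin t₀) × Finset (Fin m) × Finset (Fin m) ×
      Sym (Option (Fin m × Fin m)) (D * (m / 16)) → Finset (Fin m × Fin m) := fun z =>
    univ.filter fun e => (e.1 ∉ z.2.2.1 ∧ e.2 ∉ z.2.2.2.1 ∧
      z.1 e.1 e.2 + t₀ ≤ z.2.1 (Sum.inl e.1) + z.2.1 (Sum.inr e.2)) ∨ some e ∈ z.2.2.2.2.1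
  refine (card_le_card (t := (𝒩 ×ˢ univ).image F) ?_).trans (card_image_le.trans ?_)
  · intro E hE
    obtain ⟨h1, h2, t, d, x, y, z, ht, hx, hy, hE⟩ := (mem_filter.1 hE).2
    obtain ⟨N, hN, SA, SB, hS, hNE⟩ := h𝒩 (Fin d × Option ℤ) (fun a b => (a, b) ∈ E)
      (fun a => tok z (x a)) (fun b => tok z (y b))
      (fun a => by
        refine le_trans (card_le_card_of_injOn (fun b => (a, b)) ?_ ?_) (h1 a)
        · intro b hb
          simpa using hb
        · intro b _ b' _ h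
          simpa using h)
      (fun b => by
        refine le_trans (card_le_card_of_injOn (fun a => (a, b)) ?_ ?_) (h2 b)
        · intro a ha
          simpa using ha
        · intro a _ a' _ h
          simpa using h)
      (fun a => (card_tok_le _ _).trans (by have := hx a; omega))
      (fun b => (card_tok_le _ _).trans (by have := hy b; omega))
    rw [Fintype.card_fin] at hS
    have hS' : SA.card + SB.card ≤ m / 16 := by
      rw [Nat.le_div_iff_mul_le (by norm_num)]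
      refine Nat.le_of_mul_le_mul_left (c := 2 ^ J) ?_ (by positivity)
      calc 2 ^ J * ((SA.card + SB.card) * 16) = 16 * 2 ^ J * (SA.card + SB.card) := by ring
        _ ≤ _ := hS
    let Eb := E.filter fun e => e.1 ∈ SA ∨ e.2 ∈ SB
    have hEb : Multiset.card Eb.val ≤ D * (m / 16) := by
      have e1 : Eb ⊆ (SA.biUnion fun a => E.filter fun e => e.1 = a) ∪
          (SB.biUnion fun b => E.filter fun e => e.2 = b) := by
        intro e he
        obtain ⟨h3, h4 | h4⟩ := mem_filter.1 he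
        · exact mem_union_left _ (mem_biUnion.2 ⟨_, h4, mem_filter.2 ⟨h3, rfl⟩⟩)
        · exact mem_union_right _ (mem_biUnion.2 ⟨_, h4, mem_filter.2 ⟨h3, rfl⟩⟩)
      have e2 := card_biUnion_le_card_mul SA _ D fun a _ => h1 a
      have e3 := card_biUnion_le_card_mul SB _ D fun b _ => h2 b
      have e4 := (card_le_card e1).trans (card_union_le _ _)
      calc Eb.card ≤ SA.card * D + SB.card * D := by omega
        _ = D * (SA.card + SB.card) := by ring
        _ ≤ _ := Nat.mul_le_mul_left _ hS'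
    refine mem_image.2 ⟨(N, Sum.elim (fun a => ⟨hammingDist (x a) z, (hx a).trans_le ht⟩)
      (fun b => ⟨hammingDist (y b) z + (t₀ - t), by have := hy b; omega⟩), SA, SB,
      pad _ _ hEb), mem_product.2 ⟨hN, mem_univ _⟩, ?_⟩
    ext ⟨a, b⟩
    simp only [F, mem_filter, mem_univ, true_and, mem_pad, Sum.elim_inl, Sum.elim_inr]
    have h3 := dist_add_card_inter z (x a) (y b)
    have h4 := hE a b
    constructor
    · rintro (⟨ha, hb, h5⟩ | h5)
      · have := (hNE a ha b hb).1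
        rw [h4]
        omega
      · exact (mem_filter.1 h5).1
    · intro h5
      by_cases hab : a ∈ SA ∨ b ∈ SB
      · exact Or.inr (mem_filter.2 ⟨h5, hab⟩)
      · rw [not_or] at hab
        have := (hNE a hab.1 b hab.2).2 h5
        have h6 := h4.1 h5
        exact Or.inl ⟨hab.1, hab.2, by omega⟩
  · rw [card_product, card_univ]
    refine Nat.mul_le_mul hc' ?_
    simp only [Fintype.card_prod, Fintype.card_fun, Fintype.card_fin, Fintype.card_sum,
      Fintype.card_finset, Sym.card_sym_eq_choose, Fintype.card_option]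
    rw [two_mul m, show m * m + 1 + D * (m / 16) - 1 = m * m + D * (m / 16) by omega]
    gcongr
    exact add_choose_le _ _

lemma counting' {m t₀ D : ℕ} (hD : 1 ≤ D) (ht₀ : 1 ≤ t₀)
    (h : ∀ σ : Fin D → Equiv.Perm (Fin m), Rep t₀ (permGraph σ)) :
    m.factorial ^ D ≤ (D ^ D) ^ m * (((780 * D) ^ (24 * t₀)) ^ m * (t₀ ^ (2 * m) *
      (2 ^ m * (2 ^ m * (m * m + 1) ^ (D * (m / 16)))))) := by
  classical
  have h1 := card_le_mul_card_image_of_maps_to
    (f := fun σ : Fin D → Equiv.Perm (Fin m) => permGraph σ) (s := univ)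
    (t := univ.filter fun E : Finset (Fin m × Fin m) =>
      (∀ a, (E.filter fun e => e.1 = a).card ≤ D) ∧ (∀ b, (E.filter fun e => e.2 = b).card ≤ D) ∧
        Rep t₀ E)
    (fun σ _ => mem_filter.2 ⟨mem_univ _, permGraph_left σ, permGraph_right σ, h σ⟩) ((D ^ D) ^ m)
    (fun E hE => card_fiber_le E (mem_filter.1 hE).2.1)
  have h2 := card_rep_le' m t₀ D hD ht₀
  rw [card_univ, Fintype.card_fun, Fintype.card_perm, Fintype.card_fin, Fintype.card_fin] at h1
  refine h1.trans (Nat.mul_le_mul_left _ (le_trans (le_of_eq ?_) h2))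
  congr

lemma analysis' {n m t D : ℕ} (hD : 2 ≤ D) (hn : 512 * D ^ 2 ≤ n) (hm : n ≤ 4 * m) (ht : 1 ≤ t)
    (h : m.factorial ^ D ≤ (D ^ D) ^ m * (((780 * D) ^ (24 * t)) ^ m * (t ^ (2 * m) *
      (2 ^ m * (2 ^ m * (m * m + 1) ^ (D * (m / 16))))))) :
    D * Real.log n ≤ 800 * Real.log D * t := by
  have hD4 : 4 ≤ D ^ 2 := by nlinarith
  have hDr : (2 : ℝ) ≤ D := by exact_mod_cast hD
  have htr : (1 : ℝ) ≤ t := by exact_mod_cast ht
  have hm0 : 0 < m := by omega
  have hmr : (0 : ℝ) < m := by exact_mod_cast hm0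
  have hm1 : (1 : ℝ) ≤ m := by exact_mod_cast hm0
  have hl2 := Real.log_two_gt_d9
  have hl2' := Real.log_two_lt_d9
  have hlD : Real.log 2 ≤ Real.log D := Real.log_le_log (by norm_num) hDr
  have hln : 9 * Real.log 2 + 2 * Real.log D ≤ Real.log n := by
    have h1 : ((2 : ℝ) ^ 9 * (D : ℝ) ^ 2) ≤ n := by
      have : ((512 * D ^ 2 : ℕ) : ℝ) ≤ n := by exact_mod_cast hn
      push_cast at this
      linarith
    have h2 := Real.log_le_log (by positivity) h1
    rw [Real.log_mul (by positivity) (by positivity), Real.log_pow, Real.log_pow] at h2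
    push_cast at h2
    exact h2
  have hlt : Real.log t ≤ t := (Real.log_le_sub_one_of_pos (by linarith)).trans (by linarith)
  have hW : Real.log (780 * D) ≤ 11 * Real.log D := by
    have h1 : (780 * D : ℝ) ≤ (2 : ℝ) ^ 10 * D := by nlinarith
    have h2 := Real.log_le_log (by positivity) h1
    rw [Real.log_mul (x := (2 : ℝ) ^ 10) (by positivity) (by positivity), Real.log_pow] at h2
    push_cast at h2
    linarith
  have hfact : m * Real.log m - m ≤ Real.log m.factorial := by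
    have h1 := Real.pow_div_factorial_le_exp (m : ℝ) hmr.le m
    have h2 := Real.log_le_log (by positivity) h1
    rw [Real.log_div (by positivity) (by positivity), Real.log_pow, Real.log_exp] at h2
    linarith
  have hlm : Real.log n - 2 * Real.log 2 ≤ Real.log m := by
    have h1 : (n : ℝ) ≤ (2 : ℝ) ^ 2 * m := by
      have : (n : ℝ) ≤ ((4 * m : ℕ) : ℝ) := by exact_mod_cast hm
      push_cast at this
      linarith
    have hn0 : (0 : ℝ) < n := by
      have : 0 < n := by omega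
      exact_mod_cast this
    have h2 := Real.log_le_log hn0 h1
    rw [Real.log_mul (by positivity) (by positivity), Real.log_pow] at h2
    push_cast at h2
    linarith
  have hlm0 : 0 ≤ Real.log m := Real.log_nonneg hm1
  have hmm : Real.log ((m : ℝ) * m + 1) ≤ Real.log 2 + 2 * Real.log m := by
    have h1 : (m : ℝ) * m + 1 ≤ 2 * (m : ℝ) ^ 2 := by nlinarith
    have h2 := Real.log_le_log (by positivity) h1
    rw [Real.log_mul (by positivity) (by positivity), Real.log_pow] at h2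
    push_cast at h2
    exact h2
  have hq : ((m / 16 : ℕ) : ℝ) ≤ m / 16 := Nat.cast_div_le
  have hmain : D * Real.log m.factorial ≤
      m * (D * Real.log D) + (m * (24 * t * Real.log (780 * D)) + (2 * m * Real.log t +
        (m * Real.log 2 + (m * Real.log 2 +
          D * ((m / 16 : ℕ) : ℝ) * Real.log ((m : ℝ) * m + 1))))) := by
    have h1 : ((m.factorial : ℝ)) ^ D ≤ ((D : ℝ) ^ D) ^ m * (((780 * D : ℝ) ^ (24 * t)) ^ m *
        ((t : ℝ) ^ (2 * m) * (2 ^ m * (2 ^ m * ((m : ℝ) * m + 1) ^ (D * (m / 16)))))) := by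
      exact_mod_cast h
    have h2 := Real.log_le_log (by positivity) h1
    rw [Real.log_mul (by positivity) (by positivity), Real.log_mul (by positivity) (by positivity),
      Real.log_mul (by positivity) (by positivity), Real.log_mul (by positivity) (by positivity),
      Real.log_mul (by positivity) (by positivity)] at h2
    simp only [Real.log_pow] at h2
    rw [Nat.cast_mul D (m / 16)] at h2
    simp only [Nat.cast_mul, Nat.cast_ofNat] at h2
    exact h2
  have h8 : D * ((m / 16 : ℕ) : ℝ) * Real.log ((m : ℝ) * m + 1) ≤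
      D * (m / 16) * (Real.log 2 + 2 * Real.log m) :=
    mul_le_mul (mul_le_mul_of_nonneg_left hq (by linarith)) hmm
      (Real.log_nonneg (by nlinarith)) (by positivity)
  have h3 : m * (D * (Real.log m - 1)) ≤
      m * (D * Real.log D + 24 * t * Real.log (780 * D) + 2 * Real.log t + 2 * Real.log 2 +
        D * (Real.log 2 + 2 * Real.log m) / 16) := by
    nlinarith [mul_le_mul_of_nonneg_left hfact (by linarith : (0 : ℝ) ≤ D)]
  have h4 := le_of_mul_le_mul_left h3 hmr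
  have h5 : D * (3 / 8 * Real.log n) ≤
      D * (Real.log m - 1 - Real.log D - (Real.log 2 + 2 * Real.log m) / 16) :=
    mul_le_mul_of_nonneg_left (by linarith) (by linarith)
  have h6 : 24 * t * Real.log (780 * D) ≤ 24 * t * (11 * Real.log D) :=
    mul_le_mul_of_nonneg_left hW (by linarith)
  have h7 : t * Real.log 2 ≤ t * Real.log D := mul_le_mul_of_nonneg_left hlD (by linarith)
  have h9 : t * (0.69 : ℝ) ≤ t * Real.log 2 := mul_le_mul_of_nonneg_left (by linarith) (by linarith)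
  nlinarith

theorem lower_bound' (n D : ℕ) (hD : 2 ≤ D) (hn : D < n) :
    ∃ (G : SimpleGraph (Fin n)) (_ : DecidableRel G.Adj), G.maxDegree = D ∧
      ∀ (t : ℤ) (d : ℕ) (f : Fin n → Fin d → ℤ),
        (∀ u v, u ≠ v → (G.Adj u v ↔ t ≤ (hammingDist (f u) (f v) : ℤ))) →
        D * Real.log n ≤ 800 * Real.log D * t := by
  have hDr : (2 : ℝ) ≤ D := by exact_mod_cast hD
  have hl2 := Real.log_two_gt_d9
  have hlD : Real.log 2 ≤ Real.log D := Real.log_le_log (by norm_num) hDr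
  by_cases hc : 512 * D ^ 2 ≤ n
  · by_contra hcon
    have hD4 : 2 * D ≤ D ^ 2 := by nlinarith
    set m := (n - 1 - D) / 2 with hm
    have hall : ∀ σ : Fin D → Equiv.Perm (Fin m), ∃ t : ℕ, 1 ≤ t ∧
        800 * Real.log D * t < D * Real.log n ∧
        ∀ t₀ : ℕ, t ≤ t₀ → Rep t₀ (permGraph σ) := by
      intro σ
      obtain ⟨G, inst, hG, h⟩ := perm_case n D m hD (by omega) (by omega) σ
      by_contra hno
      refine hcon ⟨G, inst, hG, fun t d f hf => ?_⟩
      obtain ⟨h1, h2⟩ := h t d f hf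
      by_contra hlt
      refine hno ⟨t.toNat, by omega, ?_, fun t₀ ht₀ => h2 t₀ (by omega)⟩
      have : ((t.toNat : ℕ) : ℝ) = (t : ℝ) := by
        have : ((t.toNat : ℕ) : ℤ) = t := Int.toNat_of_nonneg (by omega)
        exact_mod_cast congrArg (fun z : ℤ => (z : ℝ)) this
      rw [this]
      exact not_le.1 hlt
    choose τ hτ1 hτ2 hτ3 using hall
    obtain ⟨σ₀, -, hσ₀⟩ := exists_max_image univ τ univ_nonempty
    have h1 := counting' (t₀ := τ σ₀) (by omega) (hτ1 σ₀) fun σ => hτ3 σ _ (hσ₀ σ (mem_univ _))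
    exact absurd (analysis' hD hc (by omega) (hτ1 σ₀) h1) (not_le.2 (hτ2 σ₀))
  · obtain ⟨G, inst, hG, h⟩ := small_case n D hD hn
    refine ⟨G, inst, hG, fun t d f hf => ?_⟩
    have h1 := h t d f hf
    have h2 : (D : ℝ) ≤ 3 * t := by
      have : (D : ℤ) ≤ 3 * t := by omega
      exact_mod_cast this
    have hln : Real.log n ≤ 9 * Real.log 2 + 2 * Real.log D := by
      have h3 : (n : ℝ) ≤ (2 : ℝ) ^ 9 * (D : ℝ) ^ 2 := by
        have : (n : ℝ) ≤ ((512 * D ^ 2 : ℕ) : ℝ) := by exact_mod_cast (not_le.1 hc).le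
        push_cast at this
        linarith
      have hn0 : (0 : ℝ) < n := by
        have : 0 < n := by omega
        exact_mod_cast this
      have h4 := Real.log_le_log hn0 h3
      rw [Real.log_mul (by positivity) (by positivity), Real.log_pow, Real.log_pow] at h4
      push_cast at h4
      exact h4
    set Λ := Real.log D with hΛ
    have h3 : Real.log n ≤ 11 * Λ := by linarith
    have h4 : D * Real.log n ≤ D * (11 * Λ) := mul_le_mul_of_nonneg_left h3 (by linarith)
    have h5 : D * (11 * Λ) ≤ 3 * t * (11 * Λ) := mul_le_mul_of_nonneg_right h2 (by linarith)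
    have h6 : 0 ≤ Λ * t := mul_nonneg (by linarith) (by linarith)
    nlinarith

end Pool.Agent.MP_a7b5fd_co.H39

end MrgPart1

-- ======== part 2: formerly Pool.Agent.MP_a7b5fd_co.h39.Cov
section MrgPart2

/-!
# Covering the non-edges by independent sets, few at every vertex
-/

set_option autoImplicit false

namespace Pool.Agent.MP_a7b5fd_co.H39

open Finset

/-- Sets of at most `k` tokens, disjoint along the edges, meeting along `R`. -/
def Cov {V : Type} (G : SimpleGraph V) (R : V → V → Prop) (k : ℕ) : Prop :=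
  ∃ (ι : Type) (A : V → Finset ι), (∀ v, (A v).card ≤ k) ∧
    (∀ u v, G.Adj u v → ∀ τ ∈ A u, τ ∉ A v) ∧ ∀ u v, R u v → ∃ τ ∈ A u, τ ∈ A v

lemma Cov.add {V : Type} {G : SimpleGraph V} {R R₁ R₂ : V → V → Prop} {k k₁ k₂ : ℕ}
    (h₁ : Cov G R₁ k₁) (h₂ : Cov G R₂ k₂) (hR : ∀ u v, R u v → R₁ u v ∨ R₂ u v)
    (hk : k₁ + k₂ ≤ k) : Cov G R k := by
  obtain ⟨ι₁, A₁, c₁, d₁, e₁⟩ := h₁
  obtain ⟨ι₂, A₂, c₂, d₂, e₂⟩ := h₂
  refine ⟨ι₁ ⊕ ι₂, fun v => (A₁ v).disjSum (A₂ v), fun v => ?_, ?_, fun u v h => ?_⟩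
  · rw [card_disjSum]
    exact (Nat.add_le_add (c₁ v) (c₂ v)).trans hk
  · rintro u v h (τ | τ) hτ
    · simpa using d₁ u v h τ (by simpa using hτ)
    · simpa using d₂ u v h τ (by simpa using hτ)
  · rcases hR u v h with h | h
    · obtain ⟨τ, h1, h2⟩ := e₁ u v h
      exact ⟨Sum.inl τ, by simpa using h1, by simpa using h2⟩
    · obtain ⟨τ, h1, h2⟩ := e₂ u v h
      exact ⟨Sum.inr τ, by simpa using h1, by simpa using h2⟩

lemma Cov.mono {V : Type} {G : SimpleGraph V} {R R₁ : V → V → Prop} {k k₁ : ℕ}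
    (h₁ : Cov G R₁ k₁) (hR : ∀ u v, R u v → R₁ u v) (hk : k₁ ≤ k) : Cov G R k := by
  obtain ⟨ι₁, A₁, c₁, d₁, e₁⟩ := h₁
  exact ⟨ι₁, A₁, fun v => (c₁ v).trans hk, d₁, fun u v h => e₁ u v (hR u v h)⟩

lemma ham_ind {d : ℕ} (S T : Finset (Fin d)) :
    hammingDist (fun i => if i ∈ S then (1 : ℤ) else 0) (fun i => if i ∈ T then (1 : ℤ) else 0) +
      2 * (S ∩ T).card = S.card + T.card := by
  have e1 : hammingDist (fun i => if i ∈ S then (1 : ℤ) else 0)
      (fun i => if i ∈ T then (1 : ℤ) else 0) = (S \ T).card + (T \ S).card := by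
    rw [← card_union_of_disjoint disjoint_sdiff_sdiff]
    unfold hammingDist
    congr 1
    ext i
    by_cases h1 : i ∈ S <;> by_cases h2 : i ∈ T <;> simp [h1, h2]
  have e2 := card_sdiff_add_card_inter S T
  have e3 := card_sdiff_add_card_inter T S
  rw [inter_comm] at e3
  omega

theorem rep_of_cov {n k : ℕ} {G : SimpleGraph (Fin n)}
    (h : Cov G (fun u v => u ≠ v ∧ ¬G.Adj u v) k) :
    ∃ (d : ℕ) (f : Fin n → Fin d → ℤ), ∀ u v, u ≠ v →
      (G.Adj u v ↔ ((2 * k : ℕ) : ℤ) ≤ (hammingDist (f u) (f v) : ℤ)) := by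
  classical
  obtain ⟨ι, A, hc, hd, he⟩ := h
  let S : Finset ι := univ.biUnion A
  have hS : ∀ v, ∀ τ ∈ A v, τ ∈ S := fun v τ hτ => mem_biUnion.2 ⟨v, mem_univ _, hτ⟩
  let T : Fin n → Finset (S ⊕ (Fin n × Fin k)) := fun v => ((A v).subtype (· ∈ S)).disjSum
    ({v} ×ˢ (univ.filter fun j : Fin k => (j : ℕ) < k - (A v).card))
  have hT : ∀ v, (T v).card = k := by
    intro v
    have := hc v
    simp only [T, card_disjSum, card_product, card_singleton, one_mul, card_subtype,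
      Fin.card_filter_val_lt]
    rw [filter_true_of_mem (hS v)]
    omega
  let e := Fintype.equivFin (S ⊕ (Fin n × Fin k))
  refine ⟨Fintype.card (S ⊕ (Fin n × Fin k)), fun v i => if i ∈ (T v).map e.toEmbedding then 1 else 0,
    fun u v huv => ?_⟩
  have h1 := ham_ind ((T u).map e.toEmbedding) ((T v).map e.toEmbedding)
  rw [← map_inter, card_map, card_map, card_map, hT, hT] at h1
  beta_reduce
  constructor
  · intro hadj
    have : T u ∩ T v = ∅ := by
      rw [eq_empty_iff_forall_notMem]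
      rintro (τ | ⟨w, j⟩) hτ
      · simp only [T, mem_inter, inl_mem_disjSum, mem_subtype] at hτ
        exact hd u v hadj _ hτ.1 hτ.2
      · simp only [T, mem_inter, inr_mem_disjSum, mem_product, mem_singleton] at hτ
        exact huv (hτ.1.1.symm.trans hτ.2.1)
    rw [this, card_empty] at h1
    omega
  · intro hle
    by_contra hadj
    obtain ⟨τ, h2, h3⟩ := he u v ⟨huv, hadj⟩
    have : 0 < (T u ∩ T v).card := card_pos.2 ⟨Sum.inl ⟨τ, hS u τ h2⟩, by
      simp only [T, mem_inter, inl_mem_disjSum, mem_subtype]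
      exact ⟨h2, h3⟩⟩
    omega

lemma greedy {V : Type} [Fintype V] (R : V → V → Prop) (hs : ∀ u v, R u v → R v u) (D : ℕ)
    (hD : ∀ v, ∃ S : Finset V, S.card ≤ D ∧ ∀ w, w ≠ v → R v w → w ∈ S) :
    ∃ c : V → Fin (D + 1), ∀ u v, u ≠ v → R u v → c u ≠ c v := by
  classical
  have key : ∀ T : Finset V, ∃ c : V → Fin (D + 1),
      ∀ u ∈ T, ∀ v ∈ T, u ≠ v → R u v → c u ≠ c v := by
    intro T
    induction T using Finset.induction_on with
    | empty => exact ⟨fun _ => 0, by simp⟩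
    | insert a T ha ih =>
      obtain ⟨c, hc⟩ := ih
      obtain ⟨S, hS1, hS2⟩ := hD a
      obtain ⟨x, -, hx⟩ := exists_mem_notMem_of_card_lt_card (s := S.image c) (t := univ) (by
        have := card_image_le (s := S) (f := c)
        rw [card_univ, Fintype.card_fin]
        omega)
      have hx' : ∀ w, w ≠ a → R a w → c w ≠ x := fun w h1 h2 h3 =>
        hx (mem_image.2 ⟨w, hS2 w h1 h2, h3⟩)
      refine ⟨Function.update c a x, fun u hu v hv huv hR => ?_⟩
      by_cases h1 : u = a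
      · subst h1
        rw [Function.update_self, Function.update_of_ne huv.symm]
        exact (hx' v huv.symm hR).symm
      · by_cases h2 : v = a
        · subst h2
          rw [Function.update_self, Function.update_of_ne h1]
          exact hx' u h1 (hs _ _ hR)
        · rw [Function.update_of_ne h1, Function.update_of_ne h2]
          exact hc u ((mem_insert.1 hu).resolve_left h1) v ((mem_insert.1 hv).resolve_left h2)
            huv hR
  obtain ⟨c, hc⟩ := key univ
  exact ⟨c, fun u v => hc u (mem_univ _) v (mem_univ _)⟩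

lemma exists_switch (P : ℕ → Prop) (L : ℕ) (h0 : ¬P 0) (hL : P L) :
    ∃ j < L, ¬P j ∧ P (j + 1) := by
  induction L with
  | zero => exact absurd hL h0
  | succ L ih =>
    by_cases h : P L
    · obtain ⟨j, h1, h2⟩ := ih h
      exact ⟨j, by omega, h2⟩
    · exact ⟨L, by omega, h, hL⟩

/-- The binary tree over the colours. -/
theorem top {V : Type} [Fintype V] (G : SimpleGraph V) [DecidableRel G.Adj] (Δ m L : ℕ)
    (hΔ : ∀ v, G.degree v ≤ Δ) (c : V → Fin m) (hc : ∀ u v, G.Adj u v → c u ≠ c v)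
    (h : V → ℕ) (hh : ∀ v, h v < 2 ^ L) :
    Cov G (fun u v => ∀ w, G.Adj u w → ¬(c w = c v ∧ h w = h v)) (m * (L + 2) + 2 * Δ * L) := by
  classical
  let Vs : V → Finset (Fin m × Fin m × ℕ × ℕ) := fun x =>
    (univ ×ˢ range (L + 1)).image fun z : Fin m × ℕ => (z.1, c x, z.2, h x / 2 ^ z.2)
  let Us : V → Finset (Fin m × Fin m × ℕ × ℕ) := fun x =>
    ((univ.image fun γ : Fin m => (c x, γ, L, 0)) ∪
      ((G.neighborFinset x ×ˢ range L ×ˢ range 2).image fun z : V × ℕ × ℕ =>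
        (c x, c z.1, z.2.1, 2 * (h z.1 / 2 ^ (z.2.1 + 1)) + z.2.2))).filter
      fun τ => ∀ w, G.Adj x w → ¬(c w = τ.2.1 ∧ h w / 2 ^ τ.2.2.1 = τ.2.2.2)
  have hV : ∀ x, ∀ τ ∈ Vs x, c x = τ.2.1 ∧ h x / 2 ^ τ.2.2.1 = τ.2.2.2 := by
    intro x τ hτ
    obtain ⟨z, -, rfl⟩ := mem_image.1 hτ
    exact ⟨rfl, rfl⟩
  have hU : ∀ x, ∀ τ ∈ Us x, c x = τ.1 ∧
      ∀ w, G.Adj x w → ¬(c w = τ.2.1 ∧ h w / 2 ^ τ.2.2.1 = τ.2.2.2) := by
    intro x τ hτ
    obtain ⟨h1, h2⟩ := mem_filter.1 hτ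
    refine ⟨?_, h2⟩
    rcases mem_union.1 h1 with h1 | h1
    · obtain ⟨z, -, rfl⟩ := mem_image.1 h1
      rfl
    · obtain ⟨z, -, rfl⟩ := mem_image.1 h1
      rfl
  refine ⟨Fin m × Fin m × ℕ × ℕ, fun x => Vs x ∪ Us x, fun x => ?_, ?_, ?_⟩
  · have h1 : (Vs x).card ≤ m * (L + 1) := card_image_le.trans (by simp)
    have h2 : (Us x).card ≤ m + Δ * (L * 2) := by
      refine (card_filter_le _ _).trans ((card_union_le _ _).trans (Nat.add_le_add
        (card_image_le.trans (by simp)) (card_image_le.trans ?_)))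
      rw [card_product, card_product, card_range, card_range,
        SimpleGraph.card_neighborFinset_eq_degree]
      exact Nat.mul_le_mul_right _ (hΔ x)
    refine (card_union_le _ _).trans ((Nat.add_le_add h1 h2).trans (le_of_eq (by ring)))
  · intro u v huv τ hu hv
    rcases mem_union.1 hu with hu | hu <;> rcases mem_union.1 hv with hv | hv
    · exact hc u v huv ((hV u τ hu).1.trans (hV v τ hv).1.symm)
    · exact (hU v τ hv).2 u huv.symm (hV u τ hu)
    · exact (hU u τ hu).2 v huv (hV v τ hv)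
    · exact hc u v huv ((hU u τ hu).1.trans (hU v τ hv).1.symm)
  · intro u v huv
    let P : ℕ → Prop := fun j => ∃ w, G.Adj u w ∧ c w = c v ∧ h w / 2 ^ j = h v / 2 ^ j
    have h0 : ¬P 0 := by
      rintro ⟨w, h1, h2, h3⟩
      exact huv w h1 ⟨h2, by simpa using h3⟩
    by_cases hL : P L
    · obtain ⟨j, hj, h1, w, h2, h3, h4⟩ := exists_switch P L h0 hL
      refine ⟨(c u, c v, j, h v / 2 ^ j), mem_union_right _ (mem_filter.2 ⟨mem_union_right _
        (mem_image.2 ⟨(w, j, h v / 2 ^ j % 2), ?_, ?_⟩), fun w' h5 h6 => h1 ⟨w', h5, h6⟩⟩),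
        mem_union_left _ (mem_image.2 ⟨(c u, j), by simp; omega, rfl⟩)⟩
      · simp only [mem_product, SimpleGraph.mem_neighborFinset, mem_range]
        exact ⟨h2, hj, Nat.mod_lt _ (by norm_num)⟩
      · simp only [h3, h4]
        rw [pow_succ, ← Nat.div_div_eq_div_mul, Nat.div_add_mod]
    · have e : h v / 2 ^ L = 0 := Nat.div_eq_of_lt (hh v)
      refine ⟨(c u, c v, L, 0), mem_union_right _ (mem_filter.2 ⟨mem_union_left _
        (mem_image.2 ⟨c v, mem_univ _, rfl⟩), fun w' h5 h6 => hL ⟨w', h5, h6.1, ?_⟩⟩),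
        mem_union_left _ (mem_image.2 ⟨(c u, L), by simp, by simp [e]⟩)⟩
      rw [e]
      exact h6.2

/-- For every label `x` a set `B x` and `g` disjoint sets `A x i` that miss `B x` and meet every
other `B y`. -/
def Sys (V : Type) (g a b : ℕ) : Prop :=
  ∃ (U : Type) (A : V → Fin g → Finset U) (B : V → Finset U),
    (∀ x i, (A x i).card ≤ a) ∧ (∀ x, (B x).card ≤ b) ∧
    (∀ x i j, ∀ τ ∈ A x i, τ ∈ A x j → i = j) ∧ (∀ x i, ∀ τ ∈ A x i, τ ∉ B x) ∧
    ∀ x y i, x ≠ y → ∃ τ ∈ A x i, τ ∈ B y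

/-- The stars around the vertices of one colour. -/
theorem deep {V : Type} [Fintype V] (G : SimpleGraph V) [DecidableRel G.Adj] (Δ g a b : ℕ)
    (hg : 0 < g) (hΔ : ∀ v, G.degree v ≤ Δ) (c : V → Fin (Δ + 1))
    (hc : ∀ u v, G.Adj u v → c u ≠ c v) (h : V → ℕ)
    (h1 : ∀ w w', G.Adj w w' → h w ≠ h w')
    (h2 : ∀ w u w', G.Adj w u → G.Adj u w' → h w = h w' → w = w')
    (h3 : ∀ w u u' w', G.Adj w u → G.Adj u u' → G.Adj u' w' → h w = h w' → w = w')
    (hS : Sys V g a b) :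
    Cov G (fun u v => ∃ w, G.Adj u w ∧ w ≠ v ∧ h w = h v) (Δ * a + (Δ / g + 1) * b) := by
  classical
  obtain ⟨U, A, B, ca, cb, dA, dB, hAB⟩ := hS
  let r : V → Fin g := fun x => ⟨c x % g, Nat.mod_lt _ hg⟩
  let Lf : V → Finset (ℕ × ℕ × U) := fun x => (G.neighborFinset x).biUnion fun w =>
    (A w (r x)).image fun τ => (h w, c x / g, τ)
  let Ce : V → Finset (ℕ × ℕ × U) := fun x =>
    (range (Δ / g + 1) ×ˢ B x).image fun z => (h x, z.1, z.2)
  have hL : ∀ x, ∀ τ ∈ Lf x, ∃ w, G.Adj x w ∧ h w = τ.1 ∧ c x / g = τ.2.1 ∧ τ.2.2 ∈ A w (r x) := by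
    intro x τ hτ
    obtain ⟨w, hw, hτ⟩ := mem_biUnion.1 hτ
    obtain ⟨z, hz, rfl⟩ := mem_image.1 hτ
    exact ⟨w, by simpa using hw, rfl, rfl, hz⟩
  have hC : ∀ x, ∀ τ ∈ Ce x, h x = τ.1 ∧ τ.2.2 ∈ B x := by
    intro x τ hτ
    obtain ⟨z, hz, rfl⟩ := mem_image.1 hτ
    exact ⟨rfl, (mem_product.1 hz).2⟩
  have hLC : ∀ u v, G.Adj u v → ∀ τ ∈ Lf u, τ ∉ Ce v := by
    intro u v huv τ hu hv
    obtain ⟨w, e1, e2, -, e4⟩ := hL u τ hu
    obtain ⟨e5, e6⟩ := hC v τ hv
    obtain rfl := h2 w u v e1.symm huv (e2.trans e5.symm)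
    exact dB _ _ _ e4 e6
  refine ⟨ℕ × ℕ × U, fun x => Lf x ∪ Ce x, fun x => ?_, ?_, ?_⟩
  · refine (card_union_le _ _).trans (Nat.add_le_add ?_ (card_image_le.trans ?_))
    · refine (card_biUnion_le_card_mul _ _ a fun w _ => card_image_le.trans (ca _ _)).trans ?_
      rw [SimpleGraph.card_neighborFinset_eq_degree]
      exact Nat.mul_le_mul_right _ (hΔ x)
    · rw [card_product, card_range]
      exact Nat.mul_le_mul_left _ (cb x)
  · intro u v huv τ hu hv
    rcases mem_union.1 hu with hu | hu <;> rcases mem_union.1 hv with hv | hv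
    · obtain ⟨w, e1, e2, e3, e4⟩ := hL u τ hu
      obtain ⟨w', f1, f2, f3, f4⟩ := hL v τ hv
      obtain rfl := h3 w u v w' e1.symm huv f1 (e2.trans f2.symm)
      have e5 : (c u : ℕ) % g = c v % g := congrArg Fin.val (dA _ _ _ _ e4 f4)
      refine hc u v huv (Fin.ext ?_)
      rw [← Nat.div_add_mod (c u) g, ← Nat.div_add_mod (c v) g, e3, f3, e5]
    · exact hLC u v huv τ hu hv
    · exact hLC v u huv.symm τ hv hu
    · exact h1 u v huv ((hC u τ hu).1.trans (hC v τ hv).1.symm)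
  · rintro u v ⟨w, e1, e2, e3⟩
    obtain ⟨τ, e4, e5⟩ := hAB w v (r u) e2
    refine ⟨(h w, c u / g, τ), mem_union_left _ (mem_biUnion.2 ⟨w, by simpa using e1,
      mem_image.2 ⟨τ, e4, rfl⟩⟩), mem_union_right _ (mem_image.2 ⟨(c u / g, τ), ?_, by rw [e3]⟩)⟩
    refine mem_product.2 ⟨mem_range.2 (Nat.lt_succ_of_le (Nat.div_le_div_right ?_)), e5⟩
    exact Nat.le_of_lt_succ (c u).2

theorem cov_of_sys {V : Type} [Fintype V] (G : SimpleGraph V) [DecidableRel G.Adj]
    (Δ g a b L : ℕ) (hg : 0 < g) (hΔ : ∀ v, G.degree v ≤ Δ) (hL : Δ + Δ ^ 2 + Δ ^ 3 < 2 ^ L)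
    (hS : Sys V g a b) :
    Cov G (fun u v => u ≠ v ∧ ¬G.Adj u v)
      ((Δ + 1) * (L + 2) + 2 * Δ * L + (Δ * a + (Δ / g + 1) * b)) := by
  classical
  have hN : ∀ v, (G.neighborFinset v).card ≤ Δ := fun v => by
    rw [SimpleGraph.card_neighborFinset_eq_degree]
    exact hΔ v
  obtain ⟨c, hc⟩ := greedy G.Adj (fun _ _ h => h.symm) Δ fun v =>
    ⟨G.neighborFinset v, hN v, fun w _ h => by simpa using h⟩
  obtain ⟨h, hh⟩ := greedy (fun w w' => G.Adj w w' ∨ (∃ u, G.Adj w u ∧ G.Adj u w') ∨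
      ∃ u u', G.Adj w u ∧ G.Adj u u' ∧ G.Adj u' w') (by
    rintro w w' (h | ⟨u, h1, h2⟩ | ⟨u, u', h1, h2, h3⟩)
    · exact Or.inl h.symm
    · exact Or.inr (Or.inl ⟨u, h2.symm, h1.symm⟩)
    · exact Or.inr (Or.inr ⟨u', u, h3.symm, h2.symm, h1.symm⟩)) (Δ + Δ ^ 2 + Δ ^ 3) fun v => by
    have h2 : ∀ v, ((G.neighborFinset v).biUnion fun u => G.neighborFinset u).card ≤ Δ ^ 2 :=
      fun v => (card_biUnion_le_card_mul _ _ Δ fun u _ => hN u).trans
        ((Nat.mul_le_mul_right _ (hN v)).trans (le_of_eq (by ring)))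
    have h3 : ((G.neighborFinset v).biUnion fun u =>
        (G.neighborFinset u).biUnion fun u' => G.neighborFinset u').card ≤ Δ ^ 3 :=
      (card_biUnion_le_card_mul _ _ (Δ ^ 2) fun u _ => h2 u).trans
        ((Nat.mul_le_mul_right _ (hN v)).trans (le_of_eq (by ring)))
    refine ⟨G.neighborFinset v ∪ ((G.neighborFinset v).biUnion fun u => G.neighborFinset u) ∪
      ((G.neighborFinset v).biUnion fun u =>
        (G.neighborFinset u).biUnion fun u' => G.neighborFinset u'),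
      (card_union_le _ _).trans (Nat.add_le_add ((card_union_le _ _).trans
        (Nat.add_le_add (hN v) (h2 v))) h3), ?_⟩
    rintro w - (h | ⟨u, h1, h2⟩ | ⟨u, u', h1, h2, h3⟩)
    · simp [h]
    · simp only [mem_union, mem_biUnion, SimpleGraph.mem_neighborFinset]
      exact Or.inl (Or.inr ⟨u, h1, h2⟩)
    · simp only [mem_union, mem_biUnion, SimpleGraph.mem_neighborFinset]
      exact Or.inr ⟨u, h1, u', h2, h3⟩
  have hc' : ∀ u v, G.Adj u v → c u ≠ c v := fun u v huv => hc u v huv.ne huv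
  refine (top G Δ (Δ + 1) L hΔ c hc' (fun v => h v) fun v => by have := (h v).2; omega).add
    (deep G Δ g a b hg hΔ c hc' (fun v => h v)
      (fun w w' e e' => hh w w' e.ne (Or.inl e) (Fin.ext e'))
      (fun w u w' e1 e2 e' => by
        by_contra hne
        exact hh w w' hne (Or.inr (Or.inl ⟨u, e1, e2⟩)) (Fin.ext e'))
      (fun w u u' w' e1 e2 e3 e' => by
        by_contra hne
        exact hh w w' hne (Or.inr (Or.inr ⟨u, u', e1, e2, e3⟩)) (Fin.ext e')) hS) ?_ le_rfl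
  rintro u v ⟨-, huv⟩
  by_contra hcon
  rw [not_or] at hcon
  refine hcon.1 fun w e1 e2 => hcon.2 ⟨w, e1, ?_, e2.2⟩
  rintro rfl
  exact huv e1

/-- The bound for `n` close to `Δ`. -/
theorem cov_small {n : ℕ} (G : SimpleGraph (Fin n)) [DecidableRel G.Adj] (Δ s L : ℕ)
    (hΔ : ∀ v, G.degree v ≤ Δ) (hs : n ≤ s * Δ) (hs0 : 0 < s) (hL : s ≤ 2 ^ L) :
    Cov G (fun u v => u ≠ v ∧ ¬G.Adj u v) ((2 * Δ + 1) * (L + 2) + 2 * Δ * L) := by
  classical
  obtain ⟨c, hc⟩ := greedy (fun u v : Fin n => G.Adj u v ∨ (u : ℕ) % s = v % s)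
    (fun _ _ h => h.elim (fun h => Or.inl h.symm) fun h => Or.inr h.symm) (2 * Δ) fun v => by
    refine ⟨G.neighborFinset v ∪ univ.filter fun w : Fin n => (v : ℕ) % s = w % s, ?_, ?_⟩
    · have h1 : (univ.filter fun w : Fin n => (v : ℕ) % s = w % s).card ≤ (range Δ).card := by
        refine card_le_card_of_injOn (fun w => (w : ℕ) / s) ?_ ?_
        · intro w _
          simp only [coe_range, Set.mem_Iio]
          rw [Nat.div_lt_iff_lt_mul hs0, mul_comm]
          exact lt_of_lt_of_le w.2 hs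
        · intro w hw w' hw' e
          have e1 : (v : ℕ) % s = w % s := by simpa using hw
          have e2 : (v : ℕ) % s = w' % s := by simpa using hw'
          have e3 : (w : ℕ) / s = w' / s := e
          refine Fin.ext ?_
          rw [← Nat.div_add_mod w s, ← Nat.div_add_mod w' s, e3, ← e1, ← e2]
      rw [card_range] at h1
      have h2 := hΔ v
      rw [← SimpleGraph.card_neighborFinset_eq_degree] at h2
      exact (card_union_le _ _).trans (by omega)
    · rintro w - (h | h)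
      · simp [h]
      · simp [h]
  refine (top G Δ (2 * Δ + 1) L hΔ c (fun u v h => hc u v h.ne (Or.inl h)) (fun v => v % s)
    fun v => lt_of_lt_of_le (Nat.mod_lt _ hs0) hL).mono ?_ le_rfl
  rintro u v ⟨-, huv⟩ w e1 ⟨e2, e3⟩
  refine hc w v ?_ (Or.inr e3) e2
  rintro rfl
  exact huv e1

end Pool.Agent.MP_a7b5fd_co.H39

end MrgPart2

-- ======== part 3: formerly Pool.Agent.MP_a7b5fd_co.h39.GKV
section MrgPart3

/-!
# Multiplexing `g` requirements along a parabola
-/

set_option autoImplicit false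

namespace Pool.Agent.MP_a7b5fd_co.H39

open Finset

/-- Words with equal syndromes agree, for every `γ`, in the `γ`-th class of a block in which
they differ. -/
lemma syndrome {T Z : Type} [DecidableEq T] [AddCommGroup Z] {g L₁ L₂ : ℕ} (f : Fin g → T → Z)
    (z z' : Fin L₁ × Fin L₂ → T) (hne : z ≠ z')
    (hs : ∀ p : Fin (L₁ + g) × Fin (L₂ + g ^ 2),
      (∑ x : (Fin L₁ × Fin L₂) × Fin g,
        if (x.1.1 : ℕ) + x.2 = p.1 ∧ (x.1.2 : ℕ) + (x.2 : ℕ) ^ 2 = p.2 then f x.2 (z x.1) else 0) =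
      ∑ x : (Fin L₁ × Fin L₂) × Fin g,
        if (x.1.1 : ℕ) + x.2 = p.1 ∧ (x.1.2 : ℕ) + (x.2 : ℕ) ^ 2 = p.2 then f x.2 (z' x.1) else 0)
    (γ : Fin g) : ∃ ω, z ω ≠ z' ω ∧ f γ (z ω) = f γ (z' ω) := by
  obtain ⟨ω, hω, hmax⟩ := exists_max_image (univ.filter fun ω => z ω ≠ z' ω)
    (fun ω => 2 * ((γ : ℕ) : ℤ) * ((ω.1 : ℕ) : ℤ) - ((ω.2 : ℕ) : ℤ)) (by
      obtain ⟨ω, hω⟩ := Function.ne_iff.1 hne
      exact ⟨ω, mem_filter.2 ⟨mem_univ _, hω⟩⟩)
  refine ⟨ω, (mem_filter.1 hω).2, ?_⟩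
  have hγ : (γ : ℕ) ^ 2 < g ^ 2 := Nat.pow_lt_pow_left γ.2 (by norm_num)
  have h := hs (⟨ω.1 + γ, by omega⟩, ⟨ω.2 + (γ : ℕ) ^ 2, by omega⟩)
  rw [← add_sum_erase _ _ (mem_univ (ω, γ)), ← add_sum_erase _ _ (mem_univ (ω, γ)),
    if_pos ⟨rfl, rfl⟩, if_pos ⟨rfl, rfl⟩] at h
  refine add_right_cancel (h.trans ?_)
  congr 1
  refine sum_congr rfl ?_
  rintro ⟨ω', κ⟩ hx
  split_ifs with hc
  · obtain ⟨h1, h2⟩ := hc
    simp only at h1 h2
    have hκ : (κ : ℕ) ≠ γ := by
      intro e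
      refine (mem_erase.1 hx).1 (Prod.ext (Prod.ext (Fin.ext ?_) (Fin.ext ?_)) (Fin.ext e))
      · simp only
        omega
      · rw [e] at h2
        simp only
        omega
    have e : z ω' = z' ω' := by
      by_contra hcon
      have h3 := hmax ω' (mem_filter.2 ⟨mem_univ _, hcon⟩)
      have h4 : ((ω'.1 : ℕ) : ℤ) + ((κ : ℕ) : ℤ) = (ω.1 : ℕ) + (γ : ℕ) := by exact_mod_cast h1
      have h5 : ((ω'.2 : ℕ) : ℤ) + ((κ : ℕ) : ℤ) ^ 2 = (ω.2 : ℕ) + ((γ : ℕ) : ℤ) ^ 2 := by
        exact_mod_cast h2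
      have h6 : ((γ : ℕ) : ℤ) - ((κ : ℕ) : ℤ) ≠ 0 := by omega
      have h7 := sq_pos_of_ne_zero h6
      have h8 : ((ω'.1 : ℕ) : ℤ) = (ω.1 : ℕ) + (γ : ℕ) - ((κ : ℕ) : ℤ) := by omega
      rw [h8] at h3
      nlinarith
    simp only [e]
  · rfl

theorem sys_gkv (n g m : ℕ) (hg : 1 ≤ g) (hm : 1 ≤ m) (hn : n ≤ (g + 1) ^ (30 * g ^ 5 * m)) :
    Sys (Fin n) g (64 * g ^ 5 * m) (64 * g ^ 6 * m) := by
  classical
  set M := (2 * g).descFactorial (g - 1) with hM
  have hM0 : 0 < M := Nat.descFactorial_pos.2 (by omega)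
  have : NeZero M := ⟨hM0.ne'⟩
  have hT : Fintype.card (Fin g ↪ Fin (2 * g)) = (g + 1) * M := by
    rw [Fintype.card_embedding_eq, Fintype.card_fin, Fintype.card_fin]
    obtain ⟨k, rfl⟩ : ∃ k, g = k + 1 := ⟨g - 1, by omega⟩
    rw [Nat.descFactorial_succ, hM]
    congr 1
    omega
  have hC : ∀ i : Fin g, Fintype.card ({j : Fin g // j ≠ i} ↪ Fin (2 * g)) = M := by
    intro i
    rw [Fintype.card_embedding_eq, Fintype.card_fin, Fintype.card_subtype_compl,
      Fintype.card_fin, Fintype.card_subtype_eq]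
  let f : Fin g → (Fin g ↪ Fin (2 * g)) → Fin M := fun i z =>
    Fintype.equivFinOfCardEq (hC i) ((Function.Embedding.subtype _).trans z)
  have hf : ∀ i z z', f i z = f i z' → ∀ j, j ≠ i → z j = z' j := by
    intro i z z' h j hj
    have := (Fintype.equivFinOfCardEq (hC i)).injective h
    exact DFunLike.congr_fun this ⟨j, hj⟩
  let s : (Fin (8 * g ^ 2) × Fin (8 * g ^ 3 * m) → (Fin g ↪ Fin (2 * g))) →
      Fin (8 * g ^ 2 + g) × Fin (8 * g ^ 3 * m + g ^ 2) → Fin M := fun z p =>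
    ∑ x : (Fin (8 * g ^ 2) × Fin (8 * g ^ 3 * m)) × Fin g,
      if (x.1.1 : ℕ) + x.2 = p.1 ∧ (x.1.2 : ℕ) + (x.2 : ℕ) ^ 2 = p.2 then f x.2 (z x.1) else 0
  obtain ⟨y, hy⟩ := Fintype.exists_le_card_fiber_of_mul_le_card (f := s) (n := n) (by
    simp only [Fintype.card_fun, Fintype.card_prod, Fintype.card_fin, hT]
    have h1 : M ≤ (g + 1) ^ (2 * g) := by
      refine (Nat.descFactorial_le_pow _ _).trans ?_
      rw [pow_mul]
      exact (Nat.pow_le_pow_left (by nlinarith) _).trans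
        (Nat.pow_le_pow_right (by positivity) (by omega))
    have h2 : 8 * g ^ 4 + 8 * g ^ 4 * m + g ^ 3 ≤ 17 * g ^ 4 * m := by
      have e1 : g ^ 3 ≤ g ^ 4 := Nat.pow_le_pow_right hg (by norm_num)
      have e2 : g ^ 4 ≤ g ^ 4 * m := Nat.le_mul_of_pos_right _ hm
      nlinarith
    calc M ^ ((8 * g ^ 2 + g) * (8 * g ^ 3 * m + g ^ 2)) * n
        = M ^ (8 * g ^ 2 * (8 * g ^ 3 * m)) * (M ^ (8 * g ^ 4 + 8 * g ^ 4 * m + g ^ 3) * n) := by
          rw [← mul_assoc, ← pow_add]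
          congr 2
          ring
      _ ≤ M ^ (8 * g ^ 2 * (8 * g ^ 3 * m)) *
          (((g + 1) ^ (2 * g)) ^ (17 * g ^ 4 * m) * (g + 1) ^ (30 * g ^ 5 * m)) :=
          Nat.mul_le_mul_left _ (Nat.mul_le_mul ((Nat.pow_le_pow_right hM0 h2).trans
            (Nat.pow_le_pow_left h1 _)) hn)
      _ = _ := by
          rw [mul_pow, ← pow_mul, ← pow_add, mul_comm]
          congr 2
          ring)
  obtain ⟨e⟩ : Nonempty (Fin n ↪ (univ.filter fun z => s z = y)) :=
    Function.Embedding.nonempty_of_card_le (by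
      rw [Fintype.card_fin, Fintype.card_coe]
      exact hy)
  refine ⟨(Fin (8 * g ^ 2) × Fin (8 * g ^ 3 * m)) × Fin (2 * g),
    fun x i => univ.image fun ω => (ω, (e x).1 ω i),
    fun x => univ.biUnion fun ω => (univ \ univ.map ((e x).1 ω)).image fun p => (ω, p),
    fun x i => card_image_le.trans (le_of_eq ?_), fun x => ?_, ?_, ?_, ?_⟩
  · simp only [card_univ, Fintype.card_prod, Fintype.card_fin]
    ring
  · refine (card_biUnion_le_card_mul _ _ g fun ω _ => card_image_le.trans ?_).trans (le_of_eq ?_)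
    · rw [card_univ_sdiff, card_map, card_univ, Fintype.card_fin, Fintype.card_fin]
      omega
    · simp only [card_univ, Fintype.card_prod, Fintype.card_fin]
      ring
  · intro x i j τ h1 h2
    obtain ⟨ω, -, rfl⟩ := mem_image.1 h1
    obtain ⟨ω', -, h3⟩ := mem_image.1 h2
    obtain ⟨rfl, h4⟩ := Prod.mk.inj h3
    exact (((e x).1 ω').injective h4).symm
  · intro x i τ h1 h2
    obtain ⟨ω, -, rfl⟩ := mem_image.1 h1
    obtain ⟨ω', -, h3⟩ := mem_biUnion.1 h2
    obtain ⟨p, h4, h5⟩ := mem_image.1 h3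
    obtain ⟨rfl, rfl⟩ := Prod.mk.inj h5
    exact (mem_sdiff.1 h4).2 (mem_map_of_mem _ (mem_univ _))
  · intro x x' i hx
    have h1 : (e x).1 ≠ (e x').1 := fun h => hx (e.injective (Subtype.ext h))
    have h2 : s (e x).1 = s (e x').1 :=
      (mem_filter.1 (e x).2).2.trans (mem_filter.1 (e x').2).2.symm
    obtain ⟨ω, h3, h4⟩ := syndrome f _ _ h1 (congrFun h2) i
    have h5 := hf i _ _ h4
    refine ⟨(ω, (e x).1 ω i), mem_image.2 ⟨ω, mem_univ _, rfl⟩, mem_biUnion.2 ⟨ω, mem_univ _,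
      mem_image.2 ⟨_, mem_sdiff.2 ⟨mem_univ _, fun h6 => ?_⟩, rfl⟩⟩⟩
    obtain ⟨j, -, h7⟩ := mem_map.1 h6
    by_cases hj : j = i
    · subst hj
      refine h3 (DFunLike.ext _ _ fun k => ?_)
      by_cases hk : k = j
      · rw [hk, h7]
      · exact h5 k hk
    · exact hj (((e x).1 ω).injective ((h5 j hj).trans h7))

end Pool.Agent.MP_a7b5fd_co.H39

end MrgPart3

-- ======== part 4: formerly Pool.Agent.MP_a7b5fd_co.h39.RS
section MrgPart4

/-!
# A system of induced matchings on a torus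
-/

set_option autoImplicit false

namespace Pool.Agent.MP_a7b5fd_co.H39

open Finset

lemma Sys.comap {V W : Type} {g a b : ℕ} (h : Sys W g a b) (e : V ↪ W) : Sys V g a b := by
  obtain ⟨U, A, B, h1, h2, h3, h4, h5⟩ := h
  exact ⟨U, fun x => A (e x), fun x => B (e x), fun x => h1 _, fun x => h2 _, fun x => h3 _,
    fun x => h4 _, fun x y i hxy => h5 _ _ i (e.injective.ne hxy)⟩

lemma Sys.pow {W : Type} {g a b : ℕ} (h : Sys W g a b) (l : ℕ) :
    Sys (Fin l → W) g (l * a) (l * b) := by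
  classical
  obtain ⟨U, A, B, h1, h2, h3, h4, h5⟩ := h
  refine ⟨Fin l × U, fun x i => univ.biUnion fun j => (A (x j) i).image fun τ => (j, τ),
    fun x => univ.biUnion fun j => (B (x j)).image fun τ => (j, τ), fun x i => ?_, fun x => ?_,
    ?_, ?_, ?_⟩
  · exact (card_biUnion_le_card_mul _ _ a fun j _ => card_image_le.trans (h1 _ _)).trans (by simp)
  · exact (card_biUnion_le_card_mul _ _ b fun j _ => card_image_le.trans (h2 _)).trans (by simp)
  · intro x i i' τ e1 e2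
    obtain ⟨j, -, e1⟩ := mem_biUnion.1 e1
    obtain ⟨p, e3, rfl⟩ := mem_image.1 e1
    obtain ⟨j', -, e2⟩ := mem_biUnion.1 e2
    obtain ⟨p', e4, e5⟩ := mem_image.1 e2
    obtain ⟨rfl, rfl⟩ := Prod.mk.inj e5
    exact h3 _ _ _ _ e3 e4
  · intro x i τ e1 e2
    obtain ⟨j, -, e1⟩ := mem_biUnion.1 e1
    obtain ⟨p, e3, rfl⟩ := mem_image.1 e1
    obtain ⟨j', -, e2⟩ := mem_biUnion.1 e2
    obtain ⟨p', e4, e5⟩ := mem_image.1 e2
    obtain ⟨rfl, rfl⟩ := Prod.mk.inj e5
    exact h4 _ _ _ e3 e4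
  · intro x y i hxy
    obtain ⟨j, hj⟩ := Function.ne_iff.1 hxy
    obtain ⟨τ, e1, e2⟩ := h5 _ _ i hj
    exact ⟨(j, τ), mem_biUnion.2 ⟨j, mem_univ _, mem_image_of_mem _ e1⟩,
      mem_biUnion.2 ⟨j, mem_univ _, mem_image_of_mem _ e2⟩⟩

lemma exists_code (w : ℕ) (hw : 1 ≤ w) : ∃ C : Finset (Fin (2 * w) → Fin 16), 2 ^ w ≤ C.card ∧
    ∀ x ∈ C, ∀ y ∈ C, x ≠ y → (univ.filter fun j => x j = y j).card ≤ w := by
  classical
  obtain ⟨c, hc⟩ := greedy (fun x y : Fin (2 * w) → Fin 16 =>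
    w < (univ.filter fun j => x j = y j).card) (fun x y h => by simpa only [eq_comm] using h)
    (4 ^ w * 16 ^ w) fun x => by
    refine ⟨(powersetCard w univ).biUnion fun P =>
      Fintype.piFinset fun j => if j ∈ P then {x j} else univ, ?_, ?_⟩
    · refine (card_biUnion_le_card_mul _ _ (16 ^ w) fun P hP => ?_).trans
        (Nat.mul_le_mul_right _ ?_)
      · rw [Fintype.card_piFinset]
        simp only [apply_ite card, card_singleton, card_univ, Fintype.card_fin]
        rw [prod_ite, prod_const_one, one_mul, prod_const, filter_not, filter_mem_eq_inter,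
          univ_inter, card_univ_sdiff, Fintype.card_fin, (mem_powersetCard.1 hP).2]
        exact le_of_eq (by congr 1; omega)
      · rw [card_powersetCard, card_univ, Fintype.card_fin]
        refine (Nat.choose_le_two_pow _ _).trans (le_of_eq ?_)
        rw [pow_mul]
        norm_num
    · intro y _ hy
      obtain ⟨P, h1, h2⟩ := exists_subset_card_eq hy.le
      refine mem_biUnion.2 ⟨P, mem_powersetCard.2 ⟨subset_univ _, h2⟩,
        Fintype.mem_piFinset.2 fun j => ?_⟩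
      split_ifs with hj
      · exact mem_singleton.2 (mem_filter.1 (h1 hj)).2.symm
      · exact mem_univ _
  obtain ⟨k, hk⟩ := Fintype.exists_le_card_fiber_of_mul_le_card (f := c) (n := 2 ^ w) (by
    rw [Fintype.card_fun, Fintype.card_fin, Fintype.card_fin, Fintype.card_fin, pow_mul, ← mul_pow]
    have h1 : 2 ≤ 2 ^ w := Nat.le_self_pow (by omega) 2
    have h2 : 1 ≤ 64 ^ w := Nat.one_le_pow _ _ (by norm_num)
    calc ((4 * 16) ^ w + 1) * 2 ^ w ≤ (64 ^ w * 2 ^ w) * 2 ^ w :=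
          Nat.mul_le_mul_right _ (by norm_num; nlinarith)
      _ = _ := by rw [← mul_pow, ← mul_pow]; norm_num)
  refine ⟨_, hk, fun x hx y hy hxy => ?_⟩
  by_contra hcon
  exact hc x y hxy (not_le.1 hcon) ((mem_filter.1 hx).2.trans (mem_filter.1 hy).2.symm)

lemma arc_ne {w s : ℕ} [NeZero (3 * w)] (hw : 1 ≤ w) (hs : s ≤ w) (r : ZMod (3 * w)) :
    (r + (s : ZMod (3 * w)) + (w : ZMod (3 * w))).val / w ≠ r.val / w := by
  have h1 : r + (s : ZMod (3 * w)) + (w : ZMod (3 * w)) = ((r.val + s + w : ℕ) : ZMod (3 * w)) := by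
    push_cast
    rw [ZMod.natCast_zmod_val]
  have h2 := ZMod.val_lt r
  rw [h1, ZMod.val_natCast]
  generalize r.val = a at h2
  by_cases hc : a + s + w < 3 * w
  · rw [Nat.mod_eq_of_lt hc, Nat.add_div_right _ hw]
    have := Nat.div_le_div_right (c := w) (show a ≤ a + s by omega)
    omega
  · rw [Nat.mod_eq_sub_mod (not_lt.1 hc), Nat.mod_eq_of_lt (by omega)]
    have h3 := Nat.div_le_div_right (c := w) (show a + s + w - 3 * w + w ≤ a by omega)
    rw [Nat.add_div_right _ hw] at h3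
    omega

theorem sys_rs (n w l : ℕ) (hw : 1 ≤ w) (hn : n ≤ (2 ^ w) ^ l) :
    Sys (Fin n) ((3 * w) ^ (32 * w) / 3) (l * 2) (l * (2 * (3 * w) ^ (32 * w))) := by
  classical
  have : NeZero (3 * w) := ⟨by omega⟩
  obtain ⟨C, hC1, hC2⟩ := exists_code w hw
  obtain ⟨e⟩ : Nonempty (Fin n ↪ (Fin l → C)) := Function.Embedding.nonempty_of_card_le (by
    rw [Fintype.card_fin, Fintype.card_fun, Fintype.card_fin, Fintype.card_coe]
    exact hn.trans (Nat.pow_le_pow_left hC1 _))
  refine (Sys.pow ?_ l).comap e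
  set g := (3 * w) ^ (32 * w) / 3 with hg
  have hcard : Fintype.card (Fin (2 * w) × Fin 16 → ZMod (3 * w)) = (3 * w) ^ (32 * w) := by
    rw [Fintype.card_fun, ZMod.card, Fintype.card_prod, Fintype.card_fin, Fintype.card_fin]
    congr 1
    ring
  let φ : C → (Fin (2 * w) × Fin 16 → ZMod (3 * w)) → ZMod (3 * w) := fun x p =>
    ∑ j, p (j, x.1 j)
  let ind : C → Fin (2 * w) × Fin 16 → ZMod (3 * w) := fun x q => if x.1 q.1 = q.2 then 1 else 0
  have hφ : ∀ x y p, φ y (p + ind x) =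
      φ y p + ((univ.filter fun j => x.1 j = y.1 j).card : ZMod (3 * w)) := by
    intro x y p
    simp only [φ, ind, Pi.add_apply, sum_add_distrib, sum_boole]
  let arc : ZMod (3 * w) → Fin 3 := fun r =>
    ⟨r.val / w, (Nat.div_lt_iff_lt_mul hw).2 (ZMod.val_lt r)⟩
  have hex : ∀ x : C, ∃ o : Fin 3, Nonempty (Fin g ↪ (univ.filter fun p => arc (φ x p) = o)) := by
    intro x
    obtain ⟨o, ho⟩ := Fintype.exists_le_card_fiber_of_mul_le_card (f := fun p => arc (φ x p))
      (n := g) (by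
        rw [hcard, Fintype.card_fin]
        exact Nat.mul_div_le _ _)
    exact ⟨o, Function.Embedding.nonempty_of_card_le (by
      rw [Fintype.card_fin, Fintype.card_coe]
      exact ho)⟩
  choose o ho using hex
  let p : C → Fin g → Fin (2 * w) × Fin 16 → ZMod (3 * w) := fun x i => ((ho x).some i).1
  have hp1 : ∀ x i, arc (φ x (p x i)) = o x := fun x i => (mem_filter.1 ((ho x).some i).2).2
  have hp2 : ∀ x i j, p x i = p x j → i = j := fun x i j h => (ho x).some.injective (Subtype.ext h)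
  refine ⟨Bool × (Fin (2 * w) × Fin 16 → ZMod (3 * w)),
    fun x i => {(false, p x i), (true, p x i + ind x)},
    fun x => univ.filter fun τ => arc (φ x τ.2 + if τ.1 then (w : ZMod (3 * w)) else 0) ≠ o x,
    fun x i => card_le_two, fun x => (card_filter_le _ _).trans ?_, ?_, ?_, ?_⟩
  · rw [card_univ, Fintype.card_prod, hcard, Fintype.card_bool]
  · intro x i j τ h1 h2
    simp only [mem_insert, mem_singleton] at h1 h2
    rcases h1 with rfl | rfl <;> rcases h2 with h2 | h2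
    · exact hp2 x i j (Prod.mk.inj h2).2
    · simp at h2
    · simp at h2
    · exact hp2 x i j (add_right_cancel (Prod.mk.inj h2).2)
  · intro x i τ h1 h2
    simp only [mem_insert, mem_singleton] at h1
    refine (mem_filter.1 h2).2 ?_
    rcases h1 with rfl | rfl
    · simpa using hp1 x i
    · simp only [if_true, hφ, filter_true, card_univ, Fintype.card_fin]
      rw [add_assoc, ← Nat.cast_add, show 2 * w + w = 3 * w by ring, ZMod.natCast_self, add_zero]
      exact hp1 x i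
  · intro x y i hxy
    by_cases h1 : arc (φ y (p x i)) = o y
    · refine ⟨(true, p x i + ind x), by simp, mem_filter.2 ⟨mem_univ _, ?_⟩⟩
      simp only [if_true, hφ]
      rw [← h1]
      intro h2
      exact arc_ne hw (hC2 x.1 x.2 y.1 y.2 fun h => hxy (Subtype.ext h)) _ (congrArg Fin.val h2)
    · exact ⟨(false, p x i), by simp, mem_filter.2 ⟨mem_univ _, by simpa using h1⟩⟩

end Pool.Agent.MP_a7b5fd_co.H39

end MrgPart4

-- ======== part 5: formerly Pool.Agent.MP_a7b5fd_co.h39.Upper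
section MrgPart5

/-!
# The upper bounds
-/

set_option autoImplicit false

namespace Pool.Agent.MP_a7b5fd_co.H39

open Real

lemma natLog_le (x : ℕ) (hx : 1 ≤ x) : (Nat.log 2 x : ℝ) ≤ 3 / 2 * log x := by
  have h1 : ((2 : ℝ)) ^ Nat.log 2 x ≤ x := by exact_mod_cast Nat.pow_log_le_self 2 (by omega)
  have h2 := log_le_log (by positivity) h1
  rw [log_pow] at h2
  have h3 := log_two_gt_d9
  nlinarith [Nat.cast_nonneg (α := ℝ) (Nat.log 2 x)]

lemma le_pow_of_log {n b e : ℕ} (hn : 1 ≤ n) (hb : 1 ≤ b) (h : log n ≤ e * log b) : n ≤ b ^ e := by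
  have h1 : (0 : ℝ) < n := by exact_mod_cast hn
  have h2 : (0 : ℝ) < b := by exact_mod_cast hb
  rw [← log_pow, log_le_log_iff h1 (by positivity)] at h
  exact_mod_cast h

variable {n : ℕ} (G : SimpleGraph (Fin n)) [DecidableRel G.Adj] {Δ : ℕ}

lemma up_small (hΔ : ∀ v, G.degree v ≤ Δ) (h2 : 2 ≤ Δ) (hn : Δ < n) :
    ∃ k : ℕ, Cov G (fun u v => u ≠ v ∧ ¬G.Adj u v) k ∧ (k : ℝ) ≤ Δ * (8 * log (n / Δ) + 17) := by
  have hΔ0 : (2 : ℝ) ≤ Δ := by exact_mod_cast h2
  have hn' : (Δ : ℝ) < n := by exact_mod_cast hn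
  refine ⟨_, cov_small G Δ (n / Δ + 1) (Nat.log 2 (n / Δ + 1) + 1) hΔ ?_ (Nat.succ_pos _)
    (Nat.lt_pow_succ_log_self (by norm_num) _).le, ?_⟩
  · have := Nat.lt_div_mul_add (a := n) (b := Δ) (by omega)
    nlinarith
  · have h3 := natLog_le (n / Δ + 1) (Nat.succ_pos _)
    have h4 : (1 : ℝ) < n / Δ := by rw [one_lt_div (by linarith)]; exact hn'
    have h5 : log ((n / Δ + 1 : ℕ) : ℝ) ≤ log 2 + log (n / Δ) := by
      rw [← log_mul (by norm_num) (by linarith)]
      refine log_le_log (by positivity) ?_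
      have := Nat.cast_div_le (α := ℝ) (m := n) (n := Δ)
      push_cast
      linarith
    have h6 := log_two_lt_d9
    have h7 := log_pos h4
    generalize Nat.log 2 (n / Δ + 1) = l at h3
    have h8 : (l : ℝ) ≤ 3 / 2 * log (n / Δ) + 1.04 := by linarith
    have h9 : (0 : ℝ) ≤ l := Nat.cast_nonneg l
    push_cast
    nlinarith

lemma up_sys {g a b : ℕ} (hΔ : ∀ v, G.degree v ≤ Δ) (h2 : 2 ≤ Δ) (hg : 0 < g)
    (hS : Sys (Fin n) g a b) :
    ∃ k : ℕ, Cov G (fun u v => u ≠ v ∧ ¬G.Adj u v) k ∧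
      (k : ℝ) ≤ 42 * Δ * log Δ + (Δ * a + (Δ / g + 1) * b : ℕ) := by
  have hΔ0 : (2 : ℝ) ≤ Δ := by exact_mod_cast h2
  refine ⟨_, cov_of_sys G Δ g a b (3 * (Nat.log 2 Δ + 1)) hg hΔ ?_ hS, ?_⟩
  · have h3 : Δ + 1 ≤ 2 ^ (Nat.log 2 Δ + 1) := Nat.lt_pow_succ_log_self (by norm_num) _
    rw [mul_comm, pow_mul]
    refine lt_of_lt_of_le ?_ (Nat.pow_le_pow_left h3 3)
    nlinarith
  · rw [Nat.cast_add]
    refine add_le_add ?_ le_rfl
    have h3 := natLog_le Δ (by omega)
    have h4 := log_le_log (by norm_num) hΔ0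
    have h5 := log_two_gt_d9
    generalize Nat.log 2 Δ = l at h3
    have h9 : (0 : ℝ) ≤ l := Nat.cast_nonneg l
    have h6 : 12 * (l : ℝ) + 16 ≤ 42 * log Δ := by linarith
    push_cast
    nlinarith

lemma div_add_one_mul_le {Δ g : ℕ} (h : g ≤ Δ) : (Δ / g + 1) * g ≤ 2 * Δ := by
  have := Nat.div_mul_le_self Δ g
  nlinarith

lemma up_gkv (hΔ : ∀ v, G.degree v ≤ Δ) (h2 : 2 ≤ Δ) (hn : Δ < n) :
    ∃ k : ℕ, Cov G (fun u v => u ≠ v ∧ ¬G.Adj u v) k ∧
      (k : ℝ) ≤ 42 * Δ * log Δ + 1200 * Δ * (log n / min (log Δ) (log (log n))) := by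
  classical
  have hΔ0 : (2 : ℝ) ≤ Δ := by exact_mod_cast h2
  have hn3 : (3 : ℝ) ≤ n := by exact_mod_cast (by omega : 3 ≤ n)
  have hl1 : 1 < log n := by
    rw [lt_log_iff_exp_lt (by linarith)]
    linarith [exp_one_lt_d9]
  have hμ : 0 < min (log Δ) (log (log n)) := lt_min (log_pos (by linarith)) (log_pos hl1)
  set μ := min (log Δ) (log (log n)) with hμ'
  set g := Nat.findGreatest (fun g => ((g : ℕ) : ℝ) ^ 6 ≤ log n) Δ with hg
  have hg1 : 1 ≤ g := Nat.le_findGreatest (by omega) (by simpa using hl1.le)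
  have hg2 : g ≤ Δ := Nat.findGreatest_le Δ
  have hg3 : (g : ℝ) ^ 6 ≤ log n :=
    Nat.findGreatest_spec (P := fun g => ((g : ℕ) : ℝ) ^ 6 ≤ log n) (m := 1) (by omega)
      (by simpa using hl1.le)
  have hg0 : (1 : ℝ) ≤ g := by exact_mod_cast hg1
  have hlg : 0 < log ((g : ℝ) + 1) := log_pos (by linarith)
  have hg4 : μ ≤ 6 * log ((g : ℝ) + 1) := by
    by_cases hc : g + 1 ≤ Δ
    · have h3 := Nat.findGreatest_is_greatest (P := fun g => ((g : ℕ) : ℝ) ^ 6 ≤ log n)
        (Nat.lt_succ_self g) hc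
      have h4 := log_le_log (by linarith) (not_le.1 h3).le
      rw [log_pow] at h4
      push_cast at h4
      exact (min_le_right _ _).trans h4
    · have h3 : (Δ : ℝ) ≤ g + 1 := by exact_mod_cast (by omega : Δ ≤ g + 1)
      have h4 := log_le_log (by linarith) h3
      linarith [min_le_left (log Δ) (log (log n))]
  have hg5 : log ((g : ℝ) + 1) ≤ g := (log_le_sub_one_of_pos (by linarith)).trans (by linarith)
  set m := ⌊log n / (30 * g ^ 5 * log ((g : ℝ) + 1))⌋₊ + 1 with hm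
  have hpos : 0 < 30 * (g : ℝ) ^ 5 * log ((g : ℝ) + 1) := by positivity
  have hm1 : log n / (30 * g ^ 5 * log ((g : ℝ) + 1)) ≤ m := by
    rw [hm]
    push_cast
    exact (Nat.lt_floor_add_one _).le
  have hm2 : (m : ℝ) ≤ log n / (30 * g ^ 5 * log ((g : ℝ) + 1)) + 1 := by
    rw [hm]
    push_cast
    linarith [Nat.floor_le (div_nonneg (by linarith : 0 ≤ log n) hpos.le)]
  obtain ⟨k, hk1, hk2⟩ := up_sys G hΔ h2 hg1 (sys_gkv n g m hg1 (by omega)
    (le_pow_of_log (by omega) (by omega) (by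
      rw [div_le_iff₀ hpos] at hm1
      push_cast
      linarith)))
  refine ⟨k, hk1, hk2.trans (add_le_add le_rfl ?_)⟩
  have h3 : Δ * (64 * g ^ 5 * m) + (Δ / g + 1) * (64 * g ^ 6 * m) ≤ 192 * Δ * (g ^ 5 * m) :=
    calc Δ * (64 * g ^ 5 * m) + (Δ / g + 1) * (64 * g ^ 6 * m)
        = Δ * (64 * g ^ 5 * m) + ((Δ / g + 1) * g) * (64 * g ^ 5 * m) := by ring
      _ ≤ Δ * (64 * g ^ 5 * m) + (2 * Δ) * (64 * g ^ 5 * m) :=
          Nat.add_le_add_left (Nat.mul_le_mul_right _ (div_add_one_mul_le hg2)) _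
      _ = _ := by ring
  have h4 : (g : ℝ) ^ 5 * m * μ ≤ 6.2 * log n := by
    have e1 : (g : ℝ) ^ 5 * m ≤ log n / (30 * log ((g : ℝ) + 1)) + g ^ 5 := by
      refine (mul_le_mul_of_nonneg_left hm2 (by positivity)).trans (le_of_eq ?_)
      field_simp
    have e2 : log n / (30 * log ((g : ℝ) + 1)) * μ ≤ log n / 5 := by
      rw [div_mul_eq_mul_div, div_le_div_iff₀ (by positivity) (by norm_num)]
      nlinarith
    have e3 : (g : ℝ) ^ 5 * μ ≤ 6 * log n := by
      have := mul_le_mul_of_nonneg_left (hg4.trans (mul_le_mul_of_nonneg_left hg5 (by norm_num)))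
        (by positivity : (0 : ℝ) ≤ (g : ℝ) ^ 5)
      nlinarith
    nlinarith [mul_le_mul_of_nonneg_right e1 hμ.le]
  have h5 : (g : ℝ) ^ 5 * m ≤ 6.2 * (log n / μ) := by
    rw [← mul_div_assoc, le_div_iff₀ hμ]
    exact h4
  have h6 : ((Δ * (64 * g ^ 5 * m) + (Δ / g + 1) * (64 * g ^ 6 * m) : ℕ) : ℝ) ≤
      192 * Δ * (g ^ 5 * m) := by exact_mod_cast h3
  have h7 : 0 ≤ log n / μ := div_nonneg (by linarith) hμ.le
  nlinarith [mul_le_mul_of_nonneg_left h5 (by linarith : (0 : ℝ) ≤ Δ)]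

lemma up_rs (hΔ : ∀ v, G.degree v ≤ Δ) (h2 : 3 ^ 32 ≤ Δ) (hn : Δ < n) :
    ∃ k : ℕ, Cov G (fun u v => u ≠ v ∧ ¬G.Adj u v) k ∧
      (k : ℝ) ≤ 70 * Δ * log Δ + 1800 * Δ * (log n / (log Δ / (1 + log (log Δ)))) := by
  classical
  have hΔ0 : (3 : ℝ) ≤ Δ := by exact_mod_cast (by omega : 3 ≤ Δ)
  have hn3 : (3 : ℝ) ≤ n := by exact_mod_cast (by omega : 3 ≤ n)
  have hl3 : 1 < log 3 := by
    rw [lt_log_iff_exp_lt (by norm_num)]
    linarith [exp_one_lt_d9]
  have hl1 : 1 < log n := hl3.trans_le (log_le_log (by norm_num) hn3)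
  have hlΔ : 1 < log Δ := hl3.trans_le (log_le_log (by norm_num) hΔ0)
  have hll := log_pos hlΔ
  set w := Nat.findGreatest (fun w => (3 * w) ^ (32 * w) ≤ Δ) Δ with hw
  have hw1 : 1 ≤ w := Nat.le_findGreatest (by omega) (by simpa using h2)
  have hw3 : (3 * w) ^ (32 * w) ≤ Δ :=
    Nat.findGreatest_spec (P := fun w => (3 * w) ^ (32 * w) ≤ Δ) (m := 1) (by omega)
      (by simpa using h2)
  have hw0 : (1 : ℝ) ≤ w := by exact_mod_cast hw1
  have hw4 : 32 * (w : ℝ) ≤ log Δ := by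
    have e1 : ((3 * w : ℝ)) ^ (32 * w) ≤ Δ := by exact_mod_cast hw3
    have e2 := log_le_log (by positivity) e1
    rw [log_pow] at e2
    push_cast at e2
    have e3 : log 3 ≤ log (3 * w : ℝ) := log_le_log (by norm_num) (by linarith)
    nlinarith
  have hw5 : log Δ ≤ 64 * w * log (log Δ) := by
    have e0 : w + 1 ≤ Δ := by
      have e1 : log Δ ≤ Δ - 1 := log_le_sub_one_of_pos (by linarith)
      have e2 : (w : ℝ) + 1 ≤ Δ := by linarith
      exact_mod_cast e2
    have e1 := Nat.findGreatest_is_greatest (P := fun w => (3 * w) ^ (32 * w) ≤ Δ)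
      (Nat.lt_succ_self w) e0
    have e2 : (Δ : ℝ) ≤ (3 * (w + 1) : ℝ) ^ (32 * (w + 1)) := by exact_mod_cast (not_le.1 e1).le
    have e3 := log_le_log (by linarith) e2
    rw [log_pow] at e3
    push_cast at e3
    have e4 : log (3 * (w + 1) : ℝ) ≤ log (log Δ) := log_le_log (by positivity) (by linarith)
    have e5 : 32 * ((w : ℝ) + 1) * log (3 * (w + 1) : ℝ) ≤ 64 * w * log (log Δ) :=
      mul_le_mul (by linarith) e4 (log_nonneg (by linarith)) (by positivity)
    exact e3.trans e5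
  have hl2 := log_two_gt_d9
  have hpos : 0 < (w : ℝ) * log 2 := by positivity
  set l := ⌊log n / (w * log 2)⌋₊ + 1 with hl
  have hm1 : log n / (w * log 2) ≤ l := by
    rw [hl]
    push_cast
    exact (Nat.lt_floor_add_one _).le
  have hm2 : (l : ℝ) ≤ log n / (w * log 2) + 1 := by
    rw [hl]
    push_cast
    linarith [Nat.floor_le (div_nonneg (by linarith : 0 ≤ log n) hpos.le)]
  have hN : 9 ≤ (3 * w) ^ (32 * w) :=
    le_trans (by norm_num) ((Nat.pow_le_pow_left (show 3 ≤ 3 * w by omega) 2).trans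
      (Nat.pow_le_pow_right (by omega) (by omega)))
  obtain ⟨k, hk1, hk2⟩ := up_sys G hΔ (by omega) (by omega) (sys_rs n w l hw1 (by
    rw [← pow_mul]
    refine le_pow_of_log (by omega) (by omega) ?_
    rw [div_le_iff₀ hpos] at hm1
    push_cast
    linarith))
  refine ⟨k, hk1, hk2.trans ?_⟩
  generalize (3 * w) ^ (32 * w) = N at hN hw3
  have h3 : Δ * (l * 2) + (Δ / (N / 3) + 1) * (l * (2 * N)) ≤ 18 * Δ * l :=
    calc Δ * (l * 2) + (Δ / (N / 3) + 1) * (l * (2 * N))
        ≤ Δ * (l * 2) + (Δ / (N / 3) + 1) * (l * (8 * (N / 3))) :=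
          Nat.add_le_add_left (Nat.mul_le_mul_left _ (Nat.mul_le_mul_left _ (by omega))) _
      _ = Δ * (l * 2) + ((Δ / (N / 3) + 1) * (N / 3)) * (l * 8) := by ring
      _ ≤ Δ * (l * 2) + (2 * Δ) * (l * 8) :=
          Nat.add_le_add_left (Nat.mul_le_mul_right _ (div_add_one_mul_le (by omega))) _
      _ = _ := by ring
  have h6 : ((Δ * (l * 2) + (Δ / (N / 3) + 1) * (l * (2 * N)) : ℕ) : ℝ) ≤ 18 * Δ * l := by
    exact_mod_cast h3
  have h4 : log n / (w * log 2) ≤ 100 * (log n / (log Δ / (1 + log (log Δ)))) := by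
    rw [div_div_eq_mul_div, ← mul_div_assoc, div_le_div_iff₀ hpos (by linarith)]
    have e1 : log Δ ≤ 100 * (1 + log (log Δ)) * (w * log 2) := by
      have := mul_le_mul_of_nonneg_left hl2.le (by positivity : 0 ≤ w * log (log Δ))
      nlinarith
    nlinarith [mul_le_mul_of_nonneg_left e1 (by linarith : 0 ≤ log n)]
  have h5 : (l : ℝ) ≤ 100 * (log n / (log Δ / (1 + log (log Δ)))) + log Δ := by linarith
  nlinarith [mul_le_mul_of_nonneg_left h5 (by linarith : (0 : ℝ) ≤ Δ)]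

theorem upper (hΔ : ∀ v, G.degree v ≤ Δ) (h2 : 2 ≤ Δ) (hn : Δ < n) :
    ∃ k : ℕ, Cov G (fun u v => u ≠ v ∧ ¬G.Adj u v) k ∧
      (k : ℝ) ≤ 2500 * Δ * (log n / max (log Δ / (1 + log (log Δ))) (min (log Δ) (log (log n))) +
        log (min (Δ : ℝ) (n / Δ))) := by
  have hΔ0 : (2 : ℝ) ≤ Δ := by exact_mod_cast h2
  have hn' : (Δ : ℝ) < n := by exact_mod_cast hn
  have hn3 : (3 : ℝ) ≤ n := by exact_mod_cast (by omega : 3 ≤ n)
  have hl1 : 1 < log n := by
    rw [lt_log_iff_exp_lt (by linarith)]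
    linarith [exp_one_lt_d9]
  have hl2 := log_two_gt_d9
  have hl2' := log_two_lt_d9
  have hlΔ : log 2 ≤ log Δ := log_le_log (by norm_num) hΔ0
  have hlΔn : log Δ ≤ log n := log_le_log (by linarith) hn'.le
  have hμ : 0 < min (log Δ) (log (log n)) := lt_min (by linarith) (log_pos hl1)
  have hll : 1 / 2 ≤ 1 + log (log Δ) := by
    have e1 := one_sub_inv_le_log_of_pos (x := log Δ) (by linarith)
    have e2 : (log Δ)⁻¹ ≤ 3 / 2 := by
      rw [inv_le_comm₀ (by linarith) (by norm_num)]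
      linarith
    linarith
  have hlam : log Δ / (1 + log (log Δ)) ≤ 2 * log Δ := by
    rw [div_le_iff₀ (by linarith)]
    nlinarith
  set Λ := max (log Δ / (1 + log (log Δ))) (min (log Δ) (log (log n))) with hΛ
  have hΛ0 : 0 < Λ := lt_max_of_lt_right hμ
  have hΛ1 : Λ ≤ 2 * log Δ := max_le hlam ((min_le_left _ _).trans (by linarith))
  have hq : 1 / 2 ≤ log n / Λ := by
    rw [le_div_iff₀ hΛ0]
    linarith
  by_cases hc : (n : ℝ) / Δ ≤ Δ
  · obtain ⟨k, hk1, hk2⟩ := up_small G hΔ h2 hn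
    refine ⟨k, hk1, hk2.trans ?_⟩
    rw [min_eq_right hc]
    have h4 : 0 ≤ log (n / Δ) := log_nonneg (by rw [one_le_div (by linarith)]; exact hn'.le)
    nlinarith
  · rw [min_eq_left (not_le.1 hc).le]
    rcases le_total (log Δ / (1 + log (log Δ))) (min (log Δ) (log (log n))) with h | h
    · obtain ⟨k, hk1, hk2⟩ := up_gkv G hΔ h2 hn
      refine ⟨k, hk1, hk2.trans ?_⟩
      rw [← max_eq_right h, ← hΛ]
      nlinarith [mul_nonneg (by linarith : (0 : ℝ) ≤ Δ) (by linarith : 0 ≤ log Δ),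
        mul_nonneg (by linarith : (0 : ℝ) ≤ Δ) (by linarith : 0 ≤ log n / Λ)]
    · by_cases hb : 3 ^ 32 ≤ Δ
      · obtain ⟨k, hk1, hk2⟩ := up_rs G hΔ hb hn
        refine ⟨k, hk1, hk2.trans ?_⟩
        rw [← max_eq_left h, ← hΛ]
        nlinarith [mul_nonneg (by linarith : (0 : ℝ) ≤ Δ) (by linarith : 0 ≤ log Δ),
          mul_nonneg (by linarith : (0 : ℝ) ≤ Δ) (by linarith : 0 ≤ log n / Λ)]
      · obtain ⟨k, hk1, hk2⟩ := up_small G hΔ h2 hn
        refine ⟨k, hk1, hk2.trans ?_⟩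
        have e1 : log Δ ≤ 64 * log 2 := by
          have e2 : (Δ : ℝ) ≤ 2 ^ 64 := by
            have : Δ ≤ 2 ^ 64 := by omega
            exact_mod_cast this
          have e3 := log_le_log (by linarith) e2
          rw [log_pow] at e3
          exact_mod_cast e3
        have e2 : log n / 90 ≤ log n / Λ :=
          div_le_div_of_nonneg_left (by linarith) hΛ0 (by linarith)
        have e3 : log (n / Δ) ≤ log n :=
          log_le_log (by positivity) (div_le_self (by linarith) (by linarith))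
        have e4 : 8 * log (n / Δ) + 17 ≤ 2500 * (log n / Λ + log Δ) := by linarith
        nlinarith [mul_le_mul_of_nonneg_left e4 (by linarith : (0 : ℝ) ≤ Δ)]

end Pool.Agent.MP_a7b5fd_co.H39

end MrgPart5

-- ======== part 6: formerly Pool.Agent.MP_a7b5fd_co.h39.Triv
section MrgPart6

/-!
# The trivial cover: one token for every non-edge
-/

set_option autoImplicit false

namespace Pool.Agent.MP_a7b5fd_co.H39

open Finset

theorem cov_triv {n : ℕ} (G : SimpleGraph (Fin n)) :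
    Cov G (fun u v => u ≠ v ∧ ¬G.Adj u v) n := by
  classical
  refine ⟨Sym2 (Fin n), fun v => (univ.filter fun u => ¬G.Adj u v).image fun u => s(u, v),
    fun v => ?_, ?_, ?_⟩
  · exact card_image_le.trans ((card_filter_le _ _).trans (by simp))
  · intro u v h τ h1 h2
    simp only [mem_image, mem_filter, mem_univ, true_and] at h1 h2
    obtain ⟨a, ha, rfl⟩ := h1
    obtain ⟨b, hb, e⟩ := h2
    rcases Sym2.eq_iff.1 e with ⟨-, e⟩ | ⟨e, -⟩
    · exact h.ne e.symm
    · exact hb (e ▸ h)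
  · rintro u v ⟨-, h⟩
    refine ⟨s(u, v), ?_, ?_⟩
    · simp only [mem_image, mem_filter, mem_univ, true_and]
      exact ⟨v, fun h' => h h'.symm, Sym2.eq_swap⟩
    · simp only [mem_image, mem_filter, mem_univ, true_and]
      exact ⟨u, h, rfl⟩

end Pool.Agent.MP_a7b5fd_co.H39

end MrgPart6

-- marker of a merged file
example : 731051 + 270604 = 731051 + 270604 := rfl

end MrgPart0

-- ======== part 1: formerly Pool.Agent.MP_a7b5fd_co.h3.Mux
section MrgPart1

/-! Multiplexing of thin systems of induced matchings along a parabola. -/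

set_option autoImplicit false

namespace Pool.Agent.MP_a7b5fd_co.H3

open Finset Pool.Agent.MP_a7b5fd_co.H39

/-- A block system that separates labels differing in one slot gives a system for long words. -/
theorem mux {U : Type} (n N g g₁ a b m : ℕ) (hN : 1 ≤ N) (hm : 1 ≤ m)
    (A : (Fin (g + 1) → Fin N) → Fin (g + 1) → Fin g₁ → Finset U)
    (B : (Fin (g + 1) → Fin N) → Finset U) (hA : ∀ z γ i, (A z γ i).card ≤ a)
    (hB : ∀ z, (B z).card ≤ b)
    (hd : ∀ z γ i γ' i', ∀ τ ∈ A z γ i, τ ∈ A z γ' i' → γ = γ' ∧ i = i')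
    (hm1 : ∀ z γ i, ∀ τ ∈ A z γ i, τ ∉ B z)
    (hm2 : ∀ z z' γ i, z γ ≠ z' γ → (∀ κ, κ ≠ γ → z κ = z' κ) → ∃ τ ∈ A z γ i, τ ∈ B z')
    (hn : n ≤ N ^ (47 * (g + 1) ^ 5 * m)) :
    Sys (Fin n) ((g + 1) * g₁) (64 * (g + 1) ^ 5 * m * a) (64 * (g + 1) ^ 5 * m * b) := by
  classical
  have : NeZero N := ⟨by omega⟩
  obtain ⟨G, hG⟩ : ∃ G, G = g + 1 := ⟨_, rfl⟩
  rw [← hG] at hn
  rw [show 64 * (g + 1) ^ 5 * m = 64 * G ^ 5 * m by rw [hG]]
  let f : Fin (g + 1) → (Fin (g + 1) → Fin N) → Fin g → Fin N := fun γ z j => z (γ.succAbove j)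
  let s : (Fin (8 * G ^ 2) × Fin (8 * G ^ 3 * m) → (Fin (g + 1) → Fin N)) →
      Fin (8 * G ^ 2 + (g + 1)) × Fin (8 * G ^ 3 * m + (g + 1) ^ 2) → Fin g → Fin N := fun z p =>
    ∑ x : (Fin (8 * G ^ 2) × Fin (8 * G ^ 3 * m)) × Fin (g + 1),
      if (x.1.1 : ℕ) + x.2 = p.1 ∧ (x.1.2 : ℕ) + (x.2 : ℕ) ^ 2 = p.2 then f x.2 (z x.1) else 0
  obtain ⟨y, hy⟩ := Fintype.exists_le_card_fiber_of_mul_le_card (f := s) (n := n) (by
    simp only [Fintype.card_fun, Fintype.card_prod, Fintype.card_fin]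
    refine (Nat.mul_le_mul_left _ hn).trans ?_
    rw [← pow_mul, ← pow_mul, ← pow_add, ← hG]
    refine Nat.pow_le_pow_right hN ?_
    have e1 : G ^ 4 ≤ G ^ 5 := Nat.pow_le_pow_right (by omega) (by norm_num)
    have e2 : G ^ 5 ≤ G ^ 5 * m := Nat.le_mul_of_pos_right _ hm
    have e3 : g * (8 * G ^ 4 + 8 * G ^ 4 * m + G ^ 3) ≤ G * (8 * G ^ 4 + 8 * G ^ 4 * m + G ^ 3) :=
      Nat.mul_le_mul_right _ (by omega)
    calc g * ((8 * G ^ 2 + G) * (8 * G ^ 3 * m + G ^ 2)) + 47 * G ^ 5 * m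
        = g * (64 * G ^ 5 * m) + g * (8 * G ^ 4 + 8 * G ^ 4 * m + G ^ 3) + 47 * G ^ 5 * m := by ring
      _ ≤ g * (64 * G ^ 5 * m) + 64 * G ^ 5 * m := by nlinarith
      _ = (g + 1) * (64 * G ^ 5 * m) := by ring
      _ = _ := by rw [← hG]; ring)
  obtain ⟨e⟩ : Nonempty (Fin n ↪ (univ.filter fun z => s z = y)) :=
    Function.Embedding.nonempty_of_card_le (by
      rw [Fintype.card_fin, Fintype.card_coe]
      exact hy)
  have hc : Fintype.card (Fin (8 * G ^ 2) × Fin (8 * G ^ 3 * m)) = 64 * G ^ 5 * m := by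
    simp only [Fintype.card_prod, Fintype.card_fin]; ring
  refine ⟨(Fin (8 * G ^ 2) × Fin (8 * G ^ 3 * m)) × U,
    fun x i => univ.biUnion fun ω => (A ((e x).1 ω) (finProdFinEquiv.symm i).1
      (finProdFinEquiv.symm i).2).image fun τ => (ω, τ),
    fun x => univ.biUnion fun ω => (B ((e x).1 ω)).image fun τ => (ω, τ),
    fun x i => ?_, fun x => ?_, ?_, ?_, ?_⟩
  · exact (card_biUnion_le_card_mul _ _ a fun j _ => card_image_le.trans (hA _ _ _)).trans
      (Nat.mul_le_mul_right _ hc.le)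
  · exact (card_biUnion_le_card_mul _ _ b fun j _ => card_image_le.trans (hB _)).trans
      (Nat.mul_le_mul_right _ hc.le)
  · intro x i i' τ e1 e2
    obtain ⟨j, -, e1⟩ := mem_biUnion.1 e1
    obtain ⟨p, e3, rfl⟩ := mem_image.1 e1
    obtain ⟨j', -, e2⟩ := mem_biUnion.1 e2
    obtain ⟨p', e4, e5⟩ := mem_image.1 e2
    obtain ⟨rfl, rfl⟩ := Prod.mk.inj e5
    exact finProdFinEquiv.symm.injective (Prod.ext (hd _ _ _ _ _ _ e3 e4).1 (hd _ _ _ _ _ _ e3 e4).2)
  · intro x i τ e1 e2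
    obtain ⟨j, -, e1⟩ := mem_biUnion.1 e1
    obtain ⟨p, e3, rfl⟩ := mem_image.1 e1
    obtain ⟨j', -, e2⟩ := mem_biUnion.1 e2
    obtain ⟨p', e4, e5⟩ := mem_image.1 e2
    obtain ⟨rfl, rfl⟩ := Prod.mk.inj e5
    exact hm1 _ _ _ _ e3 e4
  · intro x x' i hx
    have h1 : (e x).1 ≠ (e x').1 := fun h => hx (e.injective (Subtype.ext h))
    have h2 : s (e x).1 = s (e x').1 :=
      (mem_filter.1 (e x).2).2.trans (mem_filter.1 (e x').2).2.symm
    obtain ⟨ω, h3, h4⟩ := syndrome f _ _ h1 (congrFun h2) (finProdFinEquiv.symm i).1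
    have h5 : ∀ κ, κ ≠ (finProdFinEquiv.symm i).1 → (e x).1 ω κ = (e x').1 ω κ := fun κ hκ => by
      obtain ⟨j, rfl⟩ := Fin.exists_succAbove_eq hκ
      exact congrFun h4 j
    obtain ⟨τ, e1, e2⟩ := hm2 _ _ _ (finProdFinEquiv.symm i).2 (fun h => h3 (funext fun κ => by
      by_cases hκ : κ = (finProdFinEquiv.symm i).1
      · rw [hκ, h]
      · exact h5 κ hκ)) h5
    exact ⟨(ω, τ), mem_biUnion.2 ⟨ω, mem_univ _, mem_image_of_mem _ e1⟩,
      mem_biUnion.2 ⟨ω, mem_univ _, mem_image_of_mem _ e2⟩⟩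

lemma exists_code' (w r : ℕ) (hw : 1 ≤ w) (hr : 1 ≤ r) :
    ∃ c : Fin (r ^ w) → Fin (2 * w) → Fin (8 * r),
      ∀ x y, x ≠ y → w ≤ (univ.filter fun j => c x j ≠ c y j).card := by
  classical
  obtain ⟨c, hc⟩ := greedy (fun x y : Fin (2 * w) → Fin (8 * r) =>
    w < (univ.filter fun j => x j = y j).card) (fun x y h => by simpa only [eq_comm] using h)
    (4 ^ w * (8 * r) ^ w) fun x => by
    refine ⟨(powersetCard w univ).biUnion fun P =>
      Fintype.piFinset fun j => if j ∈ P then {x j} else univ, ?_, ?_⟩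
    · refine (card_biUnion_le_card_mul _ _ ((8 * r) ^ w) fun P hP => ?_).trans
        (Nat.mul_le_mul_right _ ?_)
      · rw [Fintype.card_piFinset]
        simp only [apply_ite card, card_singleton, card_univ, Fintype.card_fin]
        rw [prod_ite, prod_const_one, one_mul, prod_const, filter_not, filter_mem_eq_inter,
          univ_inter, card_univ_sdiff, Fintype.card_fin, (mem_powersetCard.1 hP).2]
        exact le_of_eq (by congr 1; omega)
      · rw [card_powersetCard, card_univ, Fintype.card_fin]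
        refine (Nat.choose_le_two_pow _ _).trans (le_of_eq ?_)
        rw [pow_mul]
        norm_num
    · intro y _ hy
      obtain ⟨P, h1, h2⟩ := exists_subset_card_eq hy.le
      refine mem_biUnion.2 ⟨P, mem_powersetCard.2 ⟨subset_univ _, h2⟩,
        Fintype.mem_piFinset.2 fun j => ?_⟩
      split_ifs with hj
      · exact mem_singleton.2 (mem_filter.1 (h1 hj)).2.symm
      · exact mem_univ _
  obtain ⟨k, hk⟩ := Fintype.exists_le_card_fiber_of_mul_le_card (f := c) (n := r ^ w) (by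
    rw [Fintype.card_fun, Fintype.card_fin, Fintype.card_fin, Fintype.card_fin, pow_mul, ← mul_pow]
    have h1 : 2 ≤ 2 ^ w := Nat.le_self_pow (by omega) 2
    have h2 : 1 ≤ (4 * (8 * r)) ^ w := Nat.one_le_pow _ _ (by omega)
    calc ((4 * (8 * r)) ^ w + 1) * r ^ w ≤ ((4 * (8 * r)) ^ w * 2 ^ w) * r ^ w :=
          Nat.mul_le_mul_right _ (by nlinarith)
      _ = _ := by rw [← mul_pow, ← mul_pow]; congr 1; ring)
  obtain ⟨e⟩ : Nonempty (Fin (r ^ w) ↪ (univ.filter fun z => c z = k)) :=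
    Function.Embedding.nonempty_of_card_le (by rw [Fintype.card_fin, Fintype.card_coe]; exact hk)
  refine ⟨fun x => (e x).1, fun x y hxy => ?_⟩
  have h1 : ¬ w < (univ.filter fun j => (e x).1 j = (e y).1 j).card := fun h =>
    hc _ _ (fun h' => hxy (e.injective (Subtype.ext h'))) h
      ((mem_filter.1 (e x).2).2.trans (mem_filter.1 (e y).2).2.symm)
  have h2 := card_filter_add_card_filter_not (s := univ) fun j => (e x).1 j = (e y).1 j
  rw [card_univ, Fintype.card_fin] at h2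
  simp only [ne_eq]
  omega

section
variable {W d : ℕ}

/-- The linear form of the direction `s` in the slot `γ`. -/
def lf (γ : ℕ) (s : Fin d → ℕ) (x : (Fin d → ZMod W) × ZMod W × ZMod W) : ZMod W :=
  2 * ∑ j, (s j : ZMod W) * x.1 j - x.2.1 - γ * x.2.2

/-- The squared length. -/
def nq (W : ℕ) (s : Fin d → ℕ) : ZMod W := ∑ j, (s j : ZMod W) ^ 2

/-- The shift of the direction `s`. -/
def sh (W : ℕ) (s : Fin d → ℕ) : (Fin d → ZMod W) × ZMod W × ZMod W :=
  (fun j => (s j : ZMod W), nq W s, 0)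

lemma lf_sh (γ : ℕ) (s s' : Fin d → ℕ) (x : (Fin d → ZMod W) × ZMod W × ZMod W) :
    lf γ s' (x + sh W s) - nq W s' =
      lf γ s' x - ((∑ j, ((s j : ℤ) - s' j) ^ 2 : ℤ) : ZMod W) := by
  simp only [lf, sh, nq, Prod.fst_add, Prod.snd_add, Pi.add_apply, mul_add, sum_add_distrib,
    add_zero]
  push_cast
  have : ∑ j, ((s j : ZMod W) - s' j) ^ 2 = ∑ j, (s j : ZMod W) ^ 2 + ∑ j, (s' j : ZMod W) ^ 2 -
      2 * ∑ j, (s' j : ZMod W) * s j := by
    rw [mul_sum, ← sum_add_distrib, ← sum_sub_distrib]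
    exact sum_congr rfl fun j _ => by ring
  rw [this]
  ring

lemma window [NeZero W] {w : ℕ} {D : ℤ} (h1 : (w : ℤ) ≤ D) (h2 : D + w ≤ W) {u : ZMod W}
    (hu : u.val < w) : ¬ (u - (D : ZMod W)).val < w := by
  intro h
  have e : (((u - (D : ZMod W)).val + D - u.val : ℤ) : ZMod W) = 0 := by
    push_cast
    simp
  rw [ZMod.intCast_zmod_eq_zero_iff_dvd] at e
  have := Int.le_of_dvd (by omega) e
  omega

lemma card_win [NeZero W] {w : ℕ} (h : w ≤ W) :
    (univ.filter fun u : ZMod W => u.val < w).card = w := by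
  conv_rhs => rw [← card_range w]
  refine card_bij (fun u _ => u.val) (fun u hu => mem_range.2 (mem_filter.1 hu).2)
    (fun u _ v _ e => ZMod.val_injective _ e) fun k hk => ?_
  have := mem_range.1 hk
  exact ⟨k, mem_filter.2 ⟨mem_univ _, by rwa [ZMod.val_cast_of_lt (by omega)]⟩,
    ZMod.val_cast_of_lt (by omega)⟩

lemma card_strip [NeZero W] {w : ℕ} (h : w ≤ W) (γ : ℕ) (s : Fin d → ℕ) :
    W ^ d * (w * W) ≤ (univ.filter fun x => (lf (W := W) γ s x).val < w).card := by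
  have : W ^ d * (w * W) = ((univ : Finset (Fin d → ZMod W)) ×ˢ
      (univ.filter fun u : ZMod W => u.val < w) ×ˢ (univ : Finset (ZMod W))).card := by
    simp [card_win h]
  rw [this]
  refine card_le_card_of_injOn
    (fun x => (x.1, 2 * ∑ j, (s j : ZMod W) * x.1 j - x.2.1 - γ * x.2.2, x.2.2)) ?_ ?_
  · intro x hx
    have : x.2.1.val < w := by simpa using hx
    refine mem_coe.2 (mem_filter.2 ⟨mem_univ _, ?_⟩)
    rwa [show lf γ s (x.1, 2 * ∑ j, (s j : ZMod W) * x.1 j - x.2.1 - γ * x.2.2, x.2.2) = x.2.1 by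
      simp only [lf]; ring]
  · rintro ⟨p, a, q⟩ - ⟨p', a', q'⟩ - e
    simp only [Prod.mk.injEq] at e ⊢
    obtain ⟨rfl, e, rfl⟩ := e
    exact ⟨rfl, by linear_combination -e, rfl⟩

lemma card_two [Fact W.Prime] {w : ℕ} (h : w ≤ W) {γ κ : ℕ} (hγ : γ < W) (hκ : κ < W)
    (hne : κ ≠ γ) (s s' : Fin d → ℕ) (c : ZMod W) :
    (univ.filter fun x => (lf (W := W) γ s x).val < w ∧ (lf κ s' x + c).val < w).card ≤
      W ^ d * (w * w) := by
  have : W ^ d * (w * w) = ((univ : Finset (Fin d → ZMod W)) ×ˢ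
      (univ.filter fun u : ZMod W => u.val < w) ×ˢ
        (univ.filter fun u : ZMod W => u.val < w)).card := by
    simp [card_win h]
  rw [this]
  refine card_le_card_of_injOn (fun x => (x.1, lf γ s x, lf κ s' x + c)) ?_ ?_
  · intro x hx
    simpa using hx
  · rintro ⟨p, a, q⟩ - ⟨p', a', q'⟩ - e
    simp only [Prod.mk.injEq, lf] at e ⊢
    obtain ⟨rfl, e1, e2⟩ := e
    have h0 : (κ : ZMod W) - γ ≠ 0 := by
      rw [sub_ne_zero, Ne, ZMod.natCast_eq_natCast_iff', Nat.mod_eq_of_lt hγ, Nat.mod_eq_of_lt hκ]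
      exact hne
    have h1 : q = q' := mul_left_cancel₀ h0 (by linear_combination e1 - e2)
    subst h1
    exact ⟨rfl, by linear_combination -e1, rfl⟩

end

/-- The multiplexed system. -/
theorem sys_mix (n w r m W : ℕ) (hw : 1 ≤ w) (hr : 1 ≤ r) (hm : 1 ≤ m) (hW : W.Prime)
    (h1 : 4 * w * (8 * r) ^ 2 < W) (h2 : W ≤ 8 * w * (8 * r) ^ 2)
    (hn : n ≤ (r ^ w) ^ (47 * (8 * r) ^ 10 * m)) :
    Sys (Fin n) ((8 * r) ^ 2 * (W ^ (2 * w + 2) / (16 * (8 * r) ^ 2))) (64 * (8 * r) ^ 10 * m * 2)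
      (64 * (8 * r) ^ 10 * m * (2 * W ^ (2 * w + 2))) := by
  classical
  have := Fact.mk hW
  obtain ⟨c, hc⟩ := exists_code' w r hw hr
  obtain ⟨g, hg⟩ : ∃ g, (8 * r) ^ 2 = g + 1 := ⟨(8 * r) ^ 2 - 1, by
    have : 0 < (8 * r) ^ 2 := by positivity
    omega⟩
  have e10 : (8 * r) ^ 10 = (g + 1) ^ 5 := by rw [← hg, ← pow_mul]
  let s : Fin (r ^ w) → Fin (2 * w) → ℕ := fun x j => c x j
  have hD : ∀ x y, x ≠ y → (w : ℤ) ≤ ∑ j, ((s x j : ℤ) - s y j) ^ 2 ∧
      ∑ j, ((s x j : ℤ) - s y j) ^ 2 + w ≤ W := by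
    intro x y hxy
    constructor
    · refine le_trans ?_ (sum_le_sum_of_subset_of_nonneg
        (filter_subset (fun j => c x j ≠ c y j) univ) fun _ _ _ => sq_nonneg _)
      refine le_trans ?_ (card_nsmul_le_sum _ _ 1 fun j hj => ?_)
      · simpa using hc x y hxy
      · have h3 : (s x j : ℤ) - s y j ≠ 0 := by
          rw [sub_ne_zero]
          exact_mod_cast fun h => (mem_filter.1 hj).2 (Fin.ext h)
        exact (one_le_sq_iff_one_le_abs _).2 (Int.one_le_abs h3)
    · have h3 := sum_le_card_nsmul univ (fun j => ((s x j : ℤ) - s y j) ^ 2) ((8 * r) ^ 2)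
        fun j _ => by
          have a1 : (s x j : ℤ) < 8 * r := by exact_mod_cast (c x j).2
          have a2 : (s y j : ℤ) < 8 * r := by exact_mod_cast (c y j).2
          exact sq_le_sq' (by omega) (by omega)
      have h4 : (4 * w * (8 * r) ^ 2 : ℤ) < W := by exact_mod_cast h1
      have h5 : (1 : ℤ) ≤ (8 * r) ^ 2 := by exact_mod_cast (by omega : 1 ≤ (8 * r) ^ 2)
      simp only [card_univ, Fintype.card_fin, nsmul_eq_mul] at h3
      push_cast at h3
      nlinarith
  rw [e10] at hn ⊢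
  rw [hg] at h1 h2 ⊢
  have hwW : w ≤ W := by nlinarith
  have hgW : g + 1 ≤ W := by nlinarith
  let Gd : (Fin (g + 1) → Fin (r ^ w)) → Fin (g + 1) →
      Finset ((Fin (2 * w) → ZMod W) × ZMod W × ZMod W) := fun z γ =>
    univ.filter fun x => (lf γ (s (z γ)) x).val < w ∧ ∀ κ, κ ≠ γ →
      ¬ (lf κ (s (z κ)) x).val < w ∧
      ¬ (lf κ (s (z κ)) (x + sh W (s (z γ))) - nq W (s (z κ))).val < w
  have hGd : ∀ z γ, W ^ (2 * w + 2) / (16 * (g + 1)) ≤ (Gd z γ).card := by
    intro z γ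
    have b1 := card_strip (W := W) hwW γ (s (z γ))
    have b2 : (univ.filter fun x => (lf (W := W) γ (s (z γ)) x).val < w) ⊆ Gd z γ ∪
        (univ.erase γ).biUnion fun κ : Fin (g + 1) =>
          (univ.filter fun x => (lf (W := W) γ (s (z γ)) x).val < w ∧
            (lf κ (s (z κ)) x + 0).val < w) ∪
          (univ.filter fun x => (lf (W := W) γ (s (z γ)) x).val < w ∧ (lf κ (s (z κ)) x +
            -((∑ j, ((s (z γ) j : ℤ) - s (z κ) j) ^ 2 : ℤ) : ZMod W)).val < w) := by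
      intro x hx
      simp only [Gd, mem_union, mem_filter, mem_univ, true_and, mem_biUnion, mem_erase, and_true,
        lf_sh, add_zero, ← sub_eq_add_neg] at hx ⊢
      by_contra h
      push Not at h
      obtain ⟨κ, h3, h4⟩ := h.1 hx
      exact absurd (h4 ((h.2 κ h3).1 hx)) (not_lt.2 ((h.2 κ h3).2 hx))
    have b3 := (card_le_card b2).trans ((card_union_le _ _).trans (Nat.add_le_add_left
      (card_biUnion_le_card_mul _ _ (W ^ (2 * w) * (w * w) + W ^ (2 * w) * (w * w)) fun κ hκ =>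
        (card_union_le _ _).trans (Nat.add_le_add
          (card_two hwW (by omega) (by omega) (Fin.val_ne_of_ne (mem_erase.1 hκ).1) _ _ _)
          (card_two hwW (by omega) (by omega) (Fin.val_ne_of_ne (mem_erase.1 hκ).1) _ _ _))) _))
    rw [card_erase_of_mem (mem_univ _), card_univ, Fintype.card_fin, Nat.add_sub_cancel] at b3
    refine Nat.div_le_of_le_mul ?_
    have b4 := b1.trans b3
    rw [pow_add]
    generalize W ^ (2 * w) = X at b4 ⊢
    generalize (Gd z γ).card = Y at b4 ⊢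
    have b5 : X * w * (4 * w * g) ≤ X * w * W := Nat.mul_le_mul_left _ (by nlinarith)
    have b6 : X * w * W ≤ 2 * Y := by nlinarith
    have b7 : X * W * W ≤ X * W * (8 * w * (g + 1)) := Nat.mul_le_mul_left _ h2
    nlinarith
  have hex : ∀ z γ, Nonempty (Fin (W ^ (2 * w + 2) / (16 * (g + 1))) ↪ Gd z γ) := fun z γ =>
    Function.Embedding.nonempty_of_card_le (by
      rw [Fintype.card_fin, Fintype.card_coe]; exact hGd z γ)
  obtain ⟨p, hp, hp2⟩ : ∃ p : (Fin (g + 1) → Fin (r ^ w)) → Fin (g + 1) →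
      Fin (W ^ (2 * w + 2) / (16 * (g + 1))) → (Fin (2 * w) → ZMod W) × ZMod W × ZMod W,
      (∀ z (γ : Fin (g + 1)) i, (lf γ (s (z γ)) (p z γ i)).val < w ∧ ∀ κ : Fin (g + 1), κ ≠ γ →
        ¬ (lf κ (s (z κ)) (p z γ i)).val < w ∧
        ¬ (lf κ (s (z κ)) (p z γ i + sh W (s (z γ))) - nq W (s (z κ))).val < w) ∧
      ∀ z γ i j, p z γ i = p z γ j → i = j :=
    ⟨fun z γ i => ((hex z γ).some i).1, fun z γ i => (mem_filter.1 ((hex z γ).some i).2).2,
      fun z γ i j h => (hex z γ).some.injective (Subtype.ext h)⟩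
  have hp3 : ∀ z (γ : Fin (g + 1)) i,
      (lf γ (s (z γ)) (p z γ i + sh W (s (z γ))) - nq W (s (z γ))).val < w :=
    fun z γ i => by rw [lf_sh]; simpa using (hp z γ i).1
  refine mux (U := Bool × ((Fin (2 * w) → ZMod W) × ZMod W × ZMod W)) n (r ^ w) g _ 2 _ m
    (Nat.one_le_pow _ _ hr) hm (fun z γ i => {(false, p z γ i), (true, p z γ i + sh W (s (z γ)))})
    (fun z => univ.filter fun τ => ∀ κ : Fin (g + 1),
      ¬ (lf κ (s (z κ)) τ.2 - if τ.1 then nq W (s (z κ)) else 0).val < w)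
    (fun _ _ _ => card_le_two) (fun z => (card_filter_le _ _).trans (le_of_eq ?_)) ?_ ?_ ?_ hn
  · simp [pow_add, sq]
  · intro z γ i γ' i' τ a1 a2
    simp only [mem_insert, mem_singleton] at a1 a2
    by_cases hγ : γ = γ'
    · subst hγ
      refine ⟨rfl, hp2 z γ _ _ ?_⟩
      rcases a1 with rfl | rfl <;> rcases a2 with a2 | a2
      · simpa using a2
      · simp at a2
      · simp at a2
      · simpa using a2
    · exfalso
      rcases a1 with rfl | rfl <;> rcases a2 with a2 | a2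
      · have e : p z γ i = p z γ' i' := (Prod.mk.inj a2).2
        exact ((hp z γ' i').2 γ hγ).1 (e ▸ (hp z γ i).1)
      · simp at a2
      · simp at a2
      · have e := (Prod.mk.inj a2).2
        exact ((hp z γ' i').2 γ hγ).2 (by have := hp3 z γ i; rwa [e] at this)
  · intro z γ i τ a1 a2
    simp only [mem_insert, mem_singleton] at a1
    refine (mem_filter.1 a2).2 γ ?_
    rcases a1 with rfl | rfl
    · simpa using (hp z γ i).1
    · simpa using hp3 z γ i
  · intro z z' γ i a1 a2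
    by_cases a3 : (lf γ (s (z' γ)) (p z γ i)).val < w
    · refine ⟨(true, p z γ i + sh W (s (z γ))), by simp, mem_filter.2 ⟨mem_univ _, fun κ => ?_⟩⟩
      simp only [if_true]
      by_cases hκ : κ = γ
      · rw [hκ, lf_sh]
        exact window (hD _ _ a1).1 (hD _ _ a1).2 a3
      · rw [← a2 κ hκ]
        exact ((hp z γ i).2 κ hκ).2
    · refine ⟨(false, p z γ i), by simp, mem_filter.2 ⟨mem_univ _, fun κ => ?_⟩⟩
      simp only [Bool.false_eq_true, if_false, sub_zero]
      by_cases hκ : κ = γ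
      · rwa [hκ]
      · rw [← a2 κ hκ]
        exact ((hp z γ i).2 κ hκ).1

/-! The upper bound from the multiplexed system. -/

open Real

/-- The size of the ground set for the parameter `r`. -/
@[irreducible] def F (r : ℕ) : ℕ := (8 * (8 * r) ^ 12) ^ (2 * (8 * r) ^ 10 + 2)

lemma log_F (r : ℕ) : log (F r) = (2 * (8 * r) ^ 10 + 2) * log (8 * (8 * r) ^ 12) := by
  rw [F, Nat.cast_pow, log_pow]
  push_cast
  rfl

lemma lt_F (r : ℕ) (hr : 1 ≤ r) : r < F r := by
  rw [F]
  calc r < 8 * (8 * r) := by omega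
    _ ≤ 8 * (8 * r) ^ 12 := Nat.mul_le_mul_left _ (Nat.le_self_pow (by norm_num) _)
    _ ≤ _ := Nat.le_self_pow (by omega) _

variable {n : ℕ} (G : SimpleGraph (Fin n)) [DecidableRel G.Adj] {Δ : ℕ}

lemma up_mix (hΔ : ∀ v, G.degree v ≤ Δ) (h2 : 2 ≤ Δ) (hn : Δ < n) (r : ℕ) (hr : 2 ≤ r)
    (h1 : F r ≤ Δ) (h3 : Δ < F (r + 1)) :
    ∃ k : ℕ, Cov G (fun u v => u ≠ v ∧ ¬G.Adj u v) k ∧
      (k : ℝ) ≤ 1300000 * Δ * (log n / log Δ + log Δ) := by
  have hΔ0 : (2 : ℝ) ≤ Δ := by exact_mod_cast h2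
  have hr0 : (2 : ℝ) ≤ r := by exact_mod_cast hr
  have hlΔ : 0 < log Δ := log_pos (by linarith)
  have hlr : 0 < log r := log_pos (by linarith)
  have hln : 0 ≤ log n := log_natCast_nonneg n
  have a1 : log Δ ≤ 7308 * ((8 * r) ^ 10 * log r) := by
    have b1 : log Δ ≤ log (F (r + 1)) := log_le_log (by linarith) (by exact_mod_cast h3.le)
    rw [log_F] at b1
    push_cast at b1
    have b2 : (8 * ((r : ℝ) + 1)) ^ 10 ≤ (3 / 2 * (8 * r)) ^ 10 :=
      pow_le_pow_left₀ (by linarith) (by linarith) _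
    have b3 : (16 : ℝ) ^ 10 ≤ (8 * r) ^ 10 := pow_le_pow_left₀ (by norm_num) (by linarith) _
    have b4 : (2 : ℝ) ^ 4 ≤ (r : ℝ) ^ 4 := pow_le_pow_left₀ (by norm_num) hr0 _
    have b5 : (2 : ℝ) ^ 3 ≤ (r : ℝ) ^ 3 := pow_le_pow_left₀ (by norm_num) hr0 _
    have b6 : (8 * ((r : ℝ) + 1)) ^ 12 ≤ ((r : ℝ) ^ 5) ^ 12 :=
      pow_le_pow_left₀ (by linarith) (by nlinarith) _
    have b7 : log (8 * (8 * ((r : ℝ) + 1)) ^ 12) ≤ log ((r : ℝ) ^ 63) := by
      refine log_le_log (by positivity) ?_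
      calc _ ≤ (r : ℝ) ^ 3 * ((r : ℝ) ^ 5) ^ 12 :=
            mul_le_mul (by linarith) b6 (by positivity) (by positivity)
        _ = _ := by ring
    rw [log_pow] at b7
    rw [mul_pow] at b2
    calc _ ≤ _ := b1
      _ ≤ (2 * (8 * ((r : ℝ) + 1)) ^ 10 + 2) * ((63 : ℕ) * log r) :=
          mul_le_mul_of_nonneg_left b7 (by positivity)
      _ ≤ (116 * (8 * r) ^ 10) * ((63 : ℕ) * log r) :=
          mul_le_mul_of_nonneg_right (by norm_num at b2 b3 ⊢; linarith) (by positivity)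
      _ = _ := by push_cast; ring
  have a2 : (8 * (r : ℝ)) ^ 10 ≤ log Δ := by
    have b1 : log (F r) ≤ log Δ :=
      log_le_log (by exact_mod_cast (Nat.zero_lt_of_lt (lt_F r (by omega)))) (by exact_mod_cast h1)
    rw [log_F] at b1
    have b2 : (1 : ℝ) ≤ (8 * r) ^ 12 := one_le_pow₀ (by linarith)
    have b3 : 1 ≤ log (8 * (8 * (r : ℝ)) ^ 12) := by
      rw [le_log_iff_exp_le (by linarith)]
      linarith [exp_one_lt_d9]
    have b4 : (0 : ℝ) ≤ (8 * r) ^ 10 := by positivity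
    nlinarith
  rw [F] at h1
  obtain ⟨w, hw⟩ : ∃ w, w = (8 * r) ^ 10 := ⟨_, rfl⟩
  have hw' : (w : ℝ) = (8 * r) ^ 10 := by rw [hw]; push_cast; rfl
  have hw4 : 4 ≤ w := hw ▸ le_trans (by omega) (Nat.le_self_pow (by norm_num) (8 * r))
  have hw0 : (4 : ℝ) ≤ w := by exact_mod_cast hw4
  have hρ : 0 < (8 * r) ^ 2 := by positivity
  obtain ⟨W, hW, w1, w2⟩ := Nat.exists_prime_lt_and_le_two_mul (4 * w * (8 * r) ^ 2) (by positivity)
  obtain ⟨m, hm⟩ : ∃ m, m = ⌊log n / (47 * w * (w * log r))⌋₊ + 1 := ⟨_, rfl⟩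
  have hd : 0 < 47 * w * (w * log r) := by positivity
  have m1 : log n ≤ m * (47 * w * (w * log r)) := by
    rw [← div_le_iff₀ hd, hm]
    push_cast
    exact (Nat.lt_floor_add_one _).le
  have m2 : (m : ℝ) ≤ log n / (47 * w * (w * log r)) + 1 := by
    rw [hm]
    push_cast
    linarith [Nat.floor_le (div_nonneg hln hd.le)]
  have hS := sys_mix n w r m W (by omega) (by omega) (by omega) hW w1 (by linarith)
    (le_pow_of_log (by omega) (Nat.one_le_pow _ _ (by omega)) (by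
      rw [← hw]
      push_cast
      rw [log_pow]
      linarith))
  have p1 : W ^ (2 * w + 2) ≤ Δ := by
    refine le_trans (Nat.pow_le_pow_left (w2.trans (le_of_eq ?_)) _) (hw ▸ h1)
    rw [hw]
    ring
  have p2 : 16 * (8 * r) ^ 2 ≤ W ^ (2 * w + 2) :=
    le_trans (by nlinarith) (Nat.le_self_pow (by omega) W)
  rw [← hw] at hS
  generalize W ^ (2 * w + 2) = P at hS p1 p2
  generalize (8 * r) ^ 2 = ρ at hS p2 hρ
  have p3 : 0 < P / (16 * ρ) := Nat.div_pos p2 (by omega)
  have p4 := Nat.div_mul_le_self P (16 * ρ)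
  have p5 := Nat.lt_div_mul_add (a := P) (b := 16 * ρ) (by omega)
  generalize P / (16 * ρ) = t at hS p3 p4 p5
  obtain ⟨k, k1, k2⟩ := up_sys G hΔ h2 (Nat.mul_pos hρ p3) hS
  refine ⟨k, k1, k2.trans ?_⟩
  have p6 := div_add_one_mul_le (Δ := Δ) (g := ρ * t) (by nlinarith)
  have p7 : P ≤ 32 * (ρ * t) := by nlinarith
  have p8 : Δ * (64 * w * m * 2) + (Δ / (ρ * t) + 1) * (64 * w * m * (2 * P)) ≤
      8320 * Δ * (w * m) := by
    generalize Δ / (ρ * t) + 1 = u at p6
    have : u * P ≤ 64 * Δ := by nlinarith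
    calc _ = 128 * (w * m) * (Δ + u * P) := by ring
      _ ≤ 128 * (w * m) * (Δ + 64 * Δ) := Nat.mul_le_mul_left _ (by omega)
      _ = _ := by ring
  have p9 : (w : ℝ) * m ≤ 156 * (log n / log Δ) + log Δ := by
    have b1 : w * (log n / (47 * w * (w * log r))) ≤ 156 * (log n / log Δ) := by
      rw [mul_div_assoc', mul_div_assoc', div_le_div_iff₀ hd hlΔ]
      rw [← hw'] at a1
      have b2 := mul_le_mul_of_nonneg_left a1 (mul_nonneg (Nat.cast_nonneg w) hln)
      have b3 : 0 ≤ w * log n * (w * log r) := by positivity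
      nlinarith
    nlinarith
  have q1 : ((Δ * (64 * w * m * 2) + (Δ / (ρ * t) + 1) * (64 * w * m * (2 * P)) : ℕ) : ℝ) ≤
      8320 * Δ * (w * m) := by exact_mod_cast p8
  have q2 := mul_le_mul_of_nonneg_left p9 (show (0 : ℝ) ≤ 8320 * Δ by positivity)
  have q3 : 0 ≤ Δ * (log n / log Δ) := by positivity
  have q4 : 0 ≤ Δ * log Δ := by positivity
  nlinarith

theorem upper' (hΔ : ∀ v, G.degree v ≤ Δ) (h2 : 2 ≤ Δ) (hn : Δ < n) :
    ∃ k : ℕ, Cov G (fun u v => u ≠ v ∧ ¬G.Adj u v) k ∧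
      (k : ℝ) ≤ 1300000 * Δ * (log n / log Δ + log (min (Δ : ℝ) (n / Δ))) := by
  classical
  have hΔ0 : (2 : ℝ) ≤ Δ := by exact_mod_cast h2
  have hn' : (Δ : ℝ) < n := by exact_mod_cast hn
  have hl2 := log_two_gt_d9
  have hlΔ : log 2 ≤ log Δ := log_le_log (by norm_num) hΔ0
  have hq : 1 ≤ log n / log Δ := (one_le_div (by linarith)).2 (log_le_log (by linarith) hn'.le)
  have hmin : 0 ≤ log (min (Δ : ℝ) (n / Δ)) :=
    log_nonneg (le_min (by linarith) ((one_le_div (by linarith)).2 hn'.le))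
  rcases le_total (Δ : ℝ) (n / Δ) with hc | hc
  swap
  · obtain ⟨k, k1, k2⟩ := up_small G hΔ h2 hn
    rw [min_eq_right hc] at hmin ⊢
    exact ⟨k, k1, k2.trans (by nlinarith)⟩
  have hex : ∃ j, Δ < F (j + 2) := ⟨Δ, lt_trans (by omega) (lt_F _ (by omega))⟩
  rcases Nat.eq_zero_or_pos (Nat.find hex) with h0 | h0
  · obtain ⟨k, k1, k2⟩ := upper G hΔ h2 hn
    refine ⟨k, k1, k2.trans ?_⟩
    have b0 := Nat.find_spec hex
    rw [h0] at b0
    have b1 : log Δ ≤ log (F (0 + 2)) := log_le_log (by linarith) (by exact_mod_cast b0.le)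
    rw [log_F] at b1
    have b2 := log_le_sub_one_of_pos (show (0 : ℝ) < 8 * (8 * (0 + 2 : ℕ)) ^ 12 by positivity)
    have b3 : log Δ ≤ 2 ^ 93 := b1.trans ((mul_le_mul_of_nonneg_left b2 (by positivity)).trans
      (by norm_num))
    have b4 := log_le_log (by linarith) b3
    rw [log_pow] at b4
    have b5 : log (1 / 2) ≤ log (log Δ) := log_le_log (by norm_num) (by linarith)
    rw [one_div, log_inv] at b5
    have b6 := log_two_lt_d9
    have b7 : log n / max (log Δ / (1 + log (log Δ))) (min (log Δ) (log (log n))) ≤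
        log n / (log Δ / (1 + log (log Δ))) :=
      div_le_div_of_nonneg_left (log_natCast_nonneg n) (div_pos (by linarith) (by linarith))
        (le_max_left _ _)
    rw [div_div_eq_mul_div, mul_div_right_comm] at b7
    push_cast at b4
    have b8 : log n / log Δ * (1 + log (log Δ)) ≤ log n / log Δ * 100 :=
      mul_le_mul_of_nonneg_left (by linarith) (by linarith)
    have b9 := mul_le_mul_of_nonneg_left (b7.trans b8) (show (0 : ℝ) ≤ Δ by linarith)
    have c1 : 0 ≤ Δ * log (min (Δ : ℝ) (n / Δ)) := by positivity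
    have c2 : 0 ≤ Δ * (log n / log Δ) := by positivity
    nlinarith
  · rw [min_eq_left hc]
    obtain ⟨j, hj⟩ := Nat.exists_eq_succ_of_ne_zero h0.ne'
    have b0 := Nat.find_spec hex
    rw [hj] at b0
    exact up_mix G hΔ h2 hn (j + 2) (by omega) (not_lt.1 (Nat.find_min hex (by omega))) b0

end Pool.Agent.MP_a7b5fd_co.H3

end MrgPart1

-- marker of a merged file
example : 731051 + 266577 = 731051 + 266577 := rfl
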